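import Pool.Agent.H13.PR1.Cell

/-!
# One hop, all cells

`one_hop`: the coefficients of the displacement of one hop are rarely larger than `2 ^ (κ Q)`.
-/

set_option autoImplicit false

namespace Pool.PR13

open Finset Real
open Pool.Agent.H49.Ent Pool.Agent.H32.Dense Pool.STK Pool.OWN68 Pool.PR46

/-- The levels of the cells. -/
noncomputable def lev (h : ℝ) (j₀ : ℕ) : ℕ → ℕ
  | 0 => j₀
  | i + 1 => lev h j₀ i + ⌊h / 2 * lev h j₀ i⌋₊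

theorem lev_ge (h : ℝ) (j₀ : ℕ) (i : ℕ) : j₀ ≤ lev h j₀ i := by
  induction i with
  | zero => exact le_rfl
  | succ i ih => exact ih.trans (Nat.le_add_right _ _)

theorem lev_grow {h : ℝ} (hh : 0 < h) {j₀ : ℕ} (hj : 4 / h ≤ j₀) (i : ℕ) :
    (1 + h / 4) ^ i * j₀ ≤ lev h j₀ i := by
  induction i with
  | zero => simp [lev]
  | succ i ih =>
    have h1 : (j₀ : ℝ) ≤ lev h j₀ i := by exact_mod_cast lev_ge h j₀ i
    have h2 : 1 ≤ h / 4 * lev h j₀ i := by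
      rw [div_le_iff₀ hh] at hj
      nlinarith
    have h3 := Nat.lt_floor_add_one (h / 2 * (lev h j₀ i : ℝ))
    have h4 : (lev h j₀ (i + 1) : ℝ) = lev h j₀ i + ⌊h / 2 * lev h j₀ i⌋₊ := by
      show ((lev h j₀ i + ⌊h / 2 * lev h j₀ i⌋₊ : ℕ) : ℝ) = _
      push_cast
      rfl
    rw [h4, pow_succ]
    have h5 : (1 + h / 4) ^ i * (1 + h / 4) * j₀ = (1 + h / 4) * ((1 + h / 4) ^ i * j₀) := by ring
    rw [h5]
    have h6 := mul_le_mul_of_nonneg_left ih (by linarith : (0 : ℝ) ≤ 1 + h / 4)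
    nlinarith

theorem lev_step {h : ℝ} (hh : 0 < h) (hh1 : h ≤ 1) (j₀ : ℕ) (i : ℕ) :
    (1 - h / 2) * (lev h j₀ (i + 1) : ℝ) ≤ lev h j₀ i := by
  have h4 : (lev h j₀ (i + 1) : ℝ) = lev h j₀ i + ⌊h / 2 * lev h j₀ i⌋₊ := by
    show ((lev h j₀ i + ⌊h / 2 * lev h j₀ i⌋₊ : ℕ) : ℝ) = _
    push_cast
    rfl
  have h0 : (0 : ℝ) ≤ lev h j₀ i := Nat.cast_nonneg _
  have h5 : (⌊h / 2 * lev h j₀ i⌋₊ : ℝ) ≤ h / 2 * lev h j₀ i := Nat.floor_le (by positivity)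
  rw [h4]
  have h6 : (1 - h / 2) * ((lev h j₀ i : ℝ) + ⌊h / 2 * lev h j₀ i⌋₊) ≤
      (1 - h / 2) * (lev h j₀ i + h / 2 * lev h j₀ i) :=
    mul_le_mul_of_nonneg_left (by linarith) (by linarith)
  refine h6.trans ?_
  nlinarith [mul_nonneg (sq_nonneg (h / 2)) h0]

/-- Every number between the bounds is in a cell. -/
theorem lev_cov {h : ℝ} (hh : 0 < h) (hh1 : h ≤ 1) {j₀ J₁ N : ℕ} (hJ : J₁ ≤ lev h j₀ N)
    {y x : ℝ} (hy : (1 - h / 2) * j₀ ≤ y) (hx1 : (2 : ℝ) ^ y ≤ x) (hx2 : x ≤ 2 ^ J₁) :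
    ∃ i ∈ range (N + 1), (2 : ℝ) ^ ((1 - h / 2) * ((min (lev h j₀ i) J₁ : ℕ) : ℝ)) ≤ x ∧
      x ≤ ((2 ^ min (lev h j₀ i) J₁ : ℕ) : ℝ) := by
  classical
  have hex : ∃ i, x ≤ (2 : ℝ) ^ lev h j₀ i :=
    ⟨N, hx2.trans (pow_le_pow_right₀ (by norm_num) hJ)⟩
  obtain ⟨i, hi⟩ : ∃ i, i = Nat.find hex := ⟨_, rfl⟩
  have hi1 : x ≤ (2 : ℝ) ^ lev h j₀ i := by rw [hi]; exact Nat.find_spec hex
  have hi2 : i ≤ N := by
    rw [hi]
    exact Nat.find_min' hex (hx2.trans (pow_le_pow_right₀ (by norm_num) hJ))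
  have hmin : ((min (lev h j₀ i) J₁ : ℕ) : ℝ) ≤ lev h j₀ i := by
    exact_mod_cast min_le_left _ _
  have hh2 : 0 ≤ 1 - h / 2 := by linarith
  refine ⟨i, Finset.mem_range.mpr (by omega), ?_, ?_⟩
  · rcases Nat.eq_zero_or_pos i with h0 | h0
    · refine le_trans ?_ hx1
      refine Real.rpow_le_rpow_of_exponent_le (by norm_num) ?_
      refine le_trans ?_ hy
      refine mul_le_mul_of_nonneg_left (hmin.trans (le_of_eq ?_)) hh2
      rw [h0]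
      rfl
    · obtain ⟨i', rfl⟩ : ∃ i', i = i' + 1 := ⟨i - 1, by omega⟩
      have h1 : ¬ x ≤ (2 : ℝ) ^ lev h j₀ i' := Nat.find_min hex (by omega)
      push Not at h1
      refine le_trans ?_ h1.le
      rw [← Real.rpow_natCast]
      refine Real.rpow_le_rpow_of_exponent_le (by norm_num) ?_
      refine le_trans ?_ (lev_step hh hh1 j₀ i')
      exact mul_le_mul_of_nonneg_left hmin hh2
  · push_cast
    rcases le_total (lev h j₀ i) J₁ with h0 | h0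
    · rw [min_eq_left h0]
      exact hi1
    · rw [min_eq_right h0]
      exact hx2

open Classical in
/-- **One hop.** -/
theorem one_hop (k K : ℕ) (hk : 1 ≤ k) {h κ ε : ℝ} (hh : 0 < h) (hh1 : h ≤ 1) (hκ : 0 < κ)
    (hκ1 : κ ≤ 1) (hε : 0 < ε) :
    ∃ (R δ : ℝ) (Q₀ : ℕ), 0 < R ∧ 0 < δ ∧ ∀ {Ω Λ Γ₁ 𝒞 𝒟 𝒩₁ : Type} [Fintype Ω] {p : Ω → ℝ}
      (_ : IsLaw p) (Q J₁ : ℕ) (_ : Q₀ ≤ Q) (_ : κ * Q ≤ J₁) (_ : (J₁ : ℝ) ≤ (1 + δ) * Q)
      (L : Ω → Λ) (t : Ω → ℤ) (G₁ : Ω → Γ₁) (C : Λ → 𝒞) (D : Λ → 𝒟) (N₁ : Λ → 𝒩₁)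
      (u n : Λ → ℤ → ℤ) (A : 𝒟 × Λ → Fin k → ℝ) (a b : Zo Λ 𝒟 → ℝ) {e : ℝ} (_ : 0 ≤ e)
      (_ : e ≤ δ * Q)
      (_ : ∀ ω, 0 < p ω → |t ω| ≤ ((2 ^ Q : ℕ) : ℤ))
      (_ : ∀ ω ω', 0 < p ω → 0 < p ω' → G₁ ω = G₁ ω' →
        C (L ω) = C (L ω') ∧ N₁ (L ω) = N₁ (L ω'))
      (_ : Real.log (2 * ((2 ^ Q : ℕ) : ℝ) + 1) - e ≤ CH p t L)
      (_ : CH p (fun ω => D (L ω)) (fun ω => (N₁ (L ω), C (L ω))) - e ≤
        CH p (fun ω => D (L ω)) G₁)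
      (_ : ∀ ω₀ ω₁, 0 < p ω₀ → 0 < p ω₁ → G₁ ω₀ = G₁ ω₁ → ∀ τ : ℤ, |τ| ≤ ((2 ^ Q : ℕ) : ℤ) →
        |(u (L ω₁) τ : ℝ) - a (τ, (D (L ω₁), L ω₀))| ≤ K ∧
        |(n (L ω₁) τ : ℝ) - (b (τ, (D (L ω₁), L ω₀)) -
          pv (A (D (L ω₁), L ω₀)) ((t ω₀ : ℝ) / (2 * ((2 ^ Q : ℕ) : ℝ))))| ≤ K)
      (_ : ∀ q : Ω → ℝ, IsLaw q → (∀ ω, q ω ≤ R * p ω) → ∀ j : ℕ, κ * Q ≤ j → j ≤ J₁ →
        CH q (fun ω => n (L ω) (t ω)) (fun ω => ((n (L ω) (t ω) / ((2 ^ j : ℕ) : ℤ),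
          u (L ω) (t ω)), (t ω, (C (L ω), D (L ω))))) ≤ (1 - h) * j * Real.log 2 + δ * Q),
      ∑ w, (if (2 : ℝ) ^ (κ * Q) ≤ ‖A (D (L w.2), L w.1)‖ ∧ ‖A (D (L w.2), L w.1)‖ ≤ 2 ^ J₁
        then P1 p G₁ w else 0) ≤ ε := by
  have hl2 : 0 < Real.log 2 := Real.log_pos (by norm_num)
  have hl21 : Real.log 2 ≤ 1 := by
    have := Real.log_two_lt_d9
    linarith
  have hkr : (1 : ℝ) ≤ k := by exact_mod_cast hk
  -- the number of the cells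
  obtain ⟨N, hN⟩ : ∃ N : ℕ, 2 / κ ≤ (1 + h / 4) ^ N := by
    obtain ⟨N, hN⟩ := pow_unbounded_of_one_lt (2 / κ) (by linarith : (1 : ℝ) < 1 + h / 4)
    exact ⟨N, hN.le⟩
  obtain ⟨R, hR⟩ : ∃ R : ℝ, R = 2 * (N + 1) / ε := ⟨_, rfl⟩
  have hR0 : 0 < R := by rw [hR]; positivity
  obtain ⟨σ, hσ⟩ : ∃ σ : ℝ, σ = h * κ / 16 := ⟨_, rfl⟩
  have hσ0 : 0 < σ := by rw [hσ]; positivity
  have hσ1 : σ ≤ 1 := by
    rw [hσ]
    have : h * κ ≤ 1 := by nlinarith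
    linarith
  obtain ⟨δ, hδ⟩ : ∃ δ : ℝ, δ = min 1 (min (h * κ * Real.log 2 / (8 * (3 * R + 2)))
    (σ * Real.log 2 / (12 * k * R))) := ⟨_, rfl⟩
  have hδ0 : 0 < δ := by
    rw [hδ]
    refine lt_min (by norm_num) (lt_min ?_ ?_)
    · positivity
    · positivity
  have hδ1 : δ ≤ 1 := by rw [hδ]; exact min_le_left _ _
  have hδ2 : (3 * R + 2) * δ ≤ h * κ * Real.log 2 / 8 := by
    have : δ ≤ h * κ * Real.log 2 / (8 * (3 * R + 2)) := by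
      rw [hδ]; exact (min_le_right _ _).trans (min_le_left _ _)
    rw [le_div_iff₀ (by positivity)] at this
    linarith
  have hδ3 : 3 * R * δ ≤ σ * Real.log 2 / (4 * k) := by
    have : δ ≤ σ * Real.log 2 / (12 * k * R) := by
      rw [hδ]; exact (min_le_right _ _).trans (min_le_right _ _)
    rw [le_div_iff₀ (by positivity)] at this ⊢
    linarith
  obtain ⟨Q₀, hQ₀⟩ := exists_nat_ge (max (2 / (h * κ)) (max (4 / (h * κ)) (max
    ((10 * k + 2) / σ) (max ((R + 2 + Real.log k + 1) * (4 * k) / (σ * Real.log 2))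
      ((R + Real.log 7 + Real.log (co1 K k) + 1) * 4 / (h * κ * Real.log 2))))))
  refine ⟨R, δ, Q₀, hR0, hδ0, ?_⟩
  intro Ω Λ Γ₁ 𝒞 𝒟 𝒩₁ _ p hp Q J₁ hQ hJ hJ' L t G₁ C D N₁ u n A a b e he heQ ht hG₁ hfull hI₁
    hdis hNF
  have hQr : (Q₀ : ℝ) ≤ Q := by exact_mod_cast hQ
  have q1 : 2 / (h * κ) ≤ Q := ((le_max_left _ _).trans hQ₀).trans hQr
  have q2 : 4 / (h * κ) ≤ Q :=
    (((le_max_left _ _).trans (le_max_right _ _)).trans hQ₀).trans hQr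
  have q3 : (10 * k + 2) / σ ≤ Q :=
    ((((le_max_left _ _).trans (le_max_right _ _)).trans (le_max_right _ _)).trans hQ₀).trans hQr
  have q4 : (R + 2 + Real.log k + 1) * (4 * k) / (σ * Real.log 2) ≤ Q :=
    (((((le_max_left _ _).trans (le_max_right _ _)).trans (le_max_right _ _)).trans
      (le_max_right _ _)).trans hQ₀).trans hQr
  have q5 : (R + Real.log 7 + Real.log (co1 K k) + 1) * 4 / (h * κ * Real.log 2) ≤ Q :=
    (((((le_max_right _ _).trans (le_max_right _ _)).trans (le_max_right _ _)).trans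
      (le_max_right _ _)).trans hQ₀).trans hQr
  have hQ0 : (0 : ℝ) ≤ Q := Nat.cast_nonneg Q
  rw [div_le_iff₀ (by positivity)] at q1 q2 q3 q4 q5
  -- the first level
  obtain ⟨j₀, hj₀⟩ : ∃ j₀ : ℕ, j₀ = ⌈κ * Q⌉₊ := ⟨_, rfl⟩
  have hj1 : κ * Q ≤ j₀ := by rw [hj₀]; exact Nat.le_ceil _
  have hj2 : (j₀ : ℝ) < κ * Q + 1 := by rw [hj₀]; exact Nat.ceil_lt_add_one (by positivity)
  have hj3 : 4 / h ≤ j₀ := by
    refine le_trans ?_ hj1
    rw [div_le_iff₀ hh]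
    linarith
  have hy : (1 - h / 2) * j₀ ≤ κ * Q := by
    have : (1 - h / 2) * j₀ ≤ (1 - h / 2) * (κ * Q + 1) :=
      mul_le_mul_of_nonneg_left hj2.le (by linarith)
    nlinarith
  have hJN : J₁ ≤ lev h j₀ N := by
    have h1 := lev_grow hh hj3 N
    have h2 : (J₁ : ℝ) ≤ lev h j₀ N := by
      refine le_trans ?_ h1
      have h3 : (J₁ : ℝ) ≤ 2 * Q := by nlinarith
      refine h3.trans ?_
      have h4 : 2 / κ * (κ * Q) ≤ (1 + h / 4) ^ N * j₀ :=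
        mul_le_mul hN hj1 (by positivity) (by positivity)
      refine le_trans (le_of_eq ?_) h4
      field_simp
    exact_mod_cast h2
  -- the short windows
  obtain ⟨s, hs⟩ : ∃ s : ℕ, s = ⌊σ * Q⌋₊ := ⟨_, rfl⟩
  have hs1 : (s : ℝ) ≤ σ * Q := by rw [hs]; exact Nat.floor_le (by positivity)
  have hs2 : σ * Q < s + 1 := by rw [hs]; exact Nat.lt_floor_add_one _
  have hsQ : s ≤ Q := by
    have : (s : ℝ) ≤ Q := hs1.trans (by nlinarith)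
    exact_mod_cast this
  have hs3 : 10 * k + 1 ≤ s := by
    have : (10 * (k : ℝ) + 1) < s + 1 := by linarith
    have : 10 * k + 1 < s + 1 := by exact_mod_cast this
    omega
  obtain ⟨k₀, hk₀⟩ : ∃ k₀ : ℕ, k₀ = s / (2 * k) := ⟨_, rfl⟩
  have hk0s : 2 * k * k₀ ≤ s := by rw [hk₀]; exact Nat.mul_div_le s (2 * k)
  have hk0s' : s < 2 * k * (k₀ + 1) := by
    rw [hk₀]
    exact Nat.lt_mul_div_succ s (by omega)
  have hk0le : k₀ ≤ s := by rw [hk₀]; exact Nat.div_le_self _ _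
  have hM : 1 ≤ 2 ^ Q := Nat.one_le_two_pow
  have hS : 1 ≤ 2 ^ (Q - s) := Nat.one_le_two_pow
  have hSM : 2 ^ (Q - s) ≤ 2 ^ Q := Nat.pow_le_pow_right (by norm_num) (Nat.sub_le _ _)
  have hpQ : (2 : ℝ) ^ Q = 2 ^ (Q - s) * 2 ^ s := by
    rw [← pow_add, Nat.sub_add_cancel hsQ]
  have hSr : (((2 ^ (Q - s) : ℕ) : ℝ) / (2 * ((2 ^ Q : ℕ) : ℝ))) = 1 / (2 * 2 ^ s) := by
    push_cast
    rw [hpQ]
    field_simp
  obtain ⟨lam, hlamd⟩ : ∃ lam : ℝ, lam = (k : ℝ) ^ 3 / 2 ^ s := ⟨_, rfl⟩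
  have hlam : 0 < lam := by rw [hlamd]; positivity
  have hk2 : (k : ℝ) ≤ 2 ^ k := by exact_mod_cast (Nat.lt_two_pow_self).le
  have hlam1 : lam ≤ 1 := by
    rw [hlamd, div_le_one (by positivity)]
    calc (k : ℝ) ^ 3 ≤ (2 ^ k) ^ 3 := by gcongr
      _ = 2 ^ (3 * k) := by rw [← pow_mul, mul_comm]
      _ ≤ 2 ^ s := pow_le_pow_right₀ (by norm_num) (by omega)
  have hhh : (k : ℝ) ^ 3 * (((2 ^ (Q - s) : ℕ) : ℝ) / (2 * ((2 ^ Q : ℕ) : ℝ))) ≤ lam / 2 := by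
    rw [hSr, hlamd]
    refine le_of_eq ?_
    field_simp
  obtain ⟨g, hgd⟩ : ∃ g : ℕ, g = 2 ^ (s + 1 - k₀) := ⟨_, rfl⟩
  have hg1 : 1 ≤ g := by rw [hgd]; exact Nat.one_le_two_pow
  have hg2 : (g : ℝ) * 2 ^ k₀ = 2 * 2 ^ s := by
    rw [hgd]
    push_cast
    rw [← pow_add, Nat.sub_add_cancel (by omega), pow_succ]
    ring
  have hg : (2 : ℝ) ^ (-(k₀ : ℤ)) ≤ g * (((2 ^ (Q - s) : ℕ) : ℝ) / (2 * ((2 ^ Q : ℕ) : ℝ))) := by
    rw [hSr, zpow_neg, zpow_natCast]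
    refine le_of_eq ?_
    rw [← hg2]
    have : (0 : ℝ) < g := by exact_mod_cast hg1
    field_simp
  have hlk : (k : ℝ) * 2 ^ ((k - 1) + k₀ * (k - 1)) * lam < 1 := by
    have h1 : (k - 1) + k₀ * (k - 1) + 4 * k < s := by
      have h2 : k₀ * (k - 1) ≤ k₀ * k := Nat.mul_le_mul_left _ (Nat.sub_le _ _)
      have h3 : 2 * (k₀ * k) ≤ s := by linarith [hk0s, mul_comm k₀ k, mul_assoc 2 k k₀]
      omega
    rw [hlamd]
    have h2 : (k : ℝ) * 2 ^ ((k - 1) + k₀ * (k - 1)) * ((k : ℝ) ^ 3 / 2 ^ s) =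
        (k : ℝ) ^ 4 * 2 ^ ((k - 1) + k₀ * (k - 1)) / 2 ^ s := by ring
    rw [h2, div_lt_one (by positivity)]
    calc (k : ℝ) ^ 4 * 2 ^ ((k - 1) + k₀ * (k - 1)) ≤
        (2 ^ k) ^ 4 * 2 ^ ((k - 1) + k₀ * (k - 1)) := by gcongr
      _ = 2 ^ ((k - 1) + k₀ * (k - 1) + 4 * k) := by
        rw [← pow_mul, ← pow_add]
        congr 1
        ring
      _ < 2 ^ s := pow_lt_pow_right₀ (by norm_num) h1
  have hbad : R * (3 * e + Real.log 2) <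
      Real.log ((2 * ((2 ^ Q : ℕ) : ℝ) + 1) / (k * g * ((2 ^ (Q - s) : ℕ) : ℝ))) := by
    have h1 : (2 : ℝ) ^ k₀ / k ≤ (2 * ((2 ^ Q : ℕ) : ℝ) + 1) / (k * g * ((2 ^ (Q - s) : ℕ) : ℝ)) := by
      have hg0 : (0 : ℝ) < g := by exact_mod_cast hg1
      rw [div_le_div_iff₀ (by positivity) (by positivity)]
      push_cast
      rw [hpQ]
      have e1 : (2 : ℝ) ^ k₀ * (k * g * 2 ^ (Q - s)) = (g * 2 ^ k₀) * (k * 2 ^ (Q - s)) := by ring
      rw [e1, hg2]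
      nlinarith
    have h2 : Real.log ((2 : ℝ) ^ k₀ / k) = k₀ * Real.log 2 - Real.log k := by
      rw [Real.log_div (by positivity) (by positivity), Real.log_pow]
    refine lt_of_lt_of_le ?_ (Real.log_le_log (by positivity) h1)
    rw [h2]
    have h3 : σ * Q / (2 * k) - 2 ≤ k₀ := by
      have h4 : (s : ℝ) < 2 * k * (k₀ + 1) := by exact_mod_cast hk0s'
      rw [sub_le_iff_le_add, div_le_iff₀ (by positivity)]
      nlinarith
    have h5 : R * (3 * e) ≤ σ * Real.log 2 / (4 * k) * Q := by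
      have h6 : R * (3 * e) ≤ 3 * R * δ * Q := by nlinarith
      exact h6.trans (mul_le_mul_of_nonneg_right hδ3 hQ0)
    have h7 : (R + 2 + Real.log k + 1) ≤ σ * Real.log 2 / (4 * k) * Q := by
      rw [div_mul_eq_mul_div, le_div_iff₀ (by positivity)]
      linarith
    have h8 : σ * Real.log 2 / (4 * k) * Q * 2 = σ * Q / (2 * k) * Real.log 2 := by
      field_simp
      ring
    have h9 : (σ * Q / (2 * k) - 2) * Real.log 2 ≤ k₀ * Real.log 2 :=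
      mul_le_mul_of_nonneg_right h3 hl2.le
    nlinarith
  -- the numbers of a cell
  obtain ⟨B, hBd⟩ : ∃ B : ℝ, B = (2 : ℝ) ^ (δ * Q) := ⟨_, rfl⟩
  have hB : 1 ≤ B := by
    rw [hBd]
    exact Real.one_le_rpow (by norm_num) (by positivity)
  have hcell : ∀ i, ∑ w, (if (2 : ℝ) ^ ((1 - h / 2) * ((min (lev h j₀ i) J₁ : ℕ) : ℝ)) ≤
      ‖A (D (L w.2), L w.1)‖ ∧ ‖A (D (L w.2), L w.1)‖ ≤ ((2 ^ min (lev h j₀ i) J₁ : ℕ) : ℝ)
        then P1 p G₁ w else 0) < 2 / R := by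
    intro i
    obtain ⟨j, hj⟩ : ∃ j, j = min (lev h j₀ i) J₁ := ⟨_, rfl⟩
    rw [← hj]
    have hjJ : j ≤ J₁ := by rw [hj]; exact min_le_right _ _
    have hjκ : κ * Q ≤ j := by
      rw [hj]
      push_cast
      refine le_min ?_ ?_
      · refine hj1.trans ?_
        exact_mod_cast lev_ge h j₀ i
      · exact hJ
    refine one_cell hp hM hS hSM hg1 Nat.one_le_two_pow hk L t G₁ C D N₁ u n A a b hB ?_ ?_
      hR0 he hlam hlam1 hhh hg hlk ht hG₁ hfull hI₁ hdis (fun q hq hqR => hNF q hq hqR j hjκ hjJ)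
      hbad ?_
    · push_cast
      rw [hBd, ← Real.rpow_natCast, ← Real.rpow_natCast, ← Real.rpow_add (by norm_num)]
      refine Real.rpow_le_rpow_of_exponent_le (by norm_num) ?_
      have : (j : ℝ) ≤ J₁ := by exact_mod_cast hjJ
      linarith
    · exact Real.one_le_rpow (by norm_num) (mul_nonneg (by linarith) (Nat.cast_nonneg _))
    · have l1 : Real.log ((2 : ℝ) ^ ((1 - h / 2) * (j : ℝ))) = (1 - h / 2) * j * Real.log 2 := by
        rw [Real.log_rpow (by norm_num)]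
      have l2 : Real.log (4 * ((2 ^ Q : ℕ) : ℝ) / ((2 ^ (Q - s) : ℕ) : ℝ) + 3) ≤
          s * Real.log 2 + Real.log 7 := by
        have e1 : 4 * ((2 ^ Q : ℕ) : ℝ) / ((2 ^ (Q - s) : ℕ) : ℝ) = 4 * 2 ^ s := by
          push_cast
          rw [hpQ]
          field_simp
        rw [e1, ← Real.log_pow, ← Real.log_mul (by positivity) (by norm_num)]
        refine Real.log_le_log (by positivity) ?_
        have : (1 : ℝ) ≤ 2 ^ s := one_le_pow₀ (by norm_num)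
        linarith
      have l3 : -Real.log lam ≤ s * Real.log 2 := by
        rw [hlamd, Real.log_div (by positivity) (by positivity), Real.log_pow, Real.log_pow]
        have : 0 ≤ Real.log k := Real.log_nonneg hkr
        push_cast
        linarith
      have l4 : Real.log B = δ * Q * Real.log 2 := by
        rw [hBd, Real.log_rpow (by norm_num)]
      rw [l1, l4]
      have l5 : R * (3 * e + Real.log 2) ≤ 3 * R * δ * Q + R := by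
        have : R * (3 * e) ≤ 3 * R * δ * Q := by nlinarith
        nlinarith
      have l6 : (s : ℝ) * Real.log 2 ≤ σ * Q * Real.log 2 := mul_le_mul_of_nonneg_right hs1 hl2.le
      have l7 : δ * Q * Real.log 2 ≤ δ * Q := by
        have : 0 ≤ δ * Q := by positivity
        nlinarith
      have l8 : (3 * R + 2) * δ * Q ≤ h * κ * Real.log 2 / 8 * Q :=
        mul_le_mul_of_nonneg_right hδ2 hQ0
      have l9 : h / 2 * (κ * Q) * Real.log 2 ≤ h / 2 * j * Real.log 2 := by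
        refine mul_le_mul_of_nonneg_right ?_ hl2.le
        exact mul_le_mul_of_nonneg_left hjκ (by linarith)
      have l10 : (R + Real.log 7 + Real.log (co1 K k) + 1) * 4 ≤ Q * (h * κ * Real.log 2) := q5
      have l11 : σ * Q * Real.log 2 = h * κ * Real.log 2 / 16 * Q := by rw [hσ]; ring
      have l12 : (1 - h / 2) * (j : ℝ) * Real.log 2 =
        (1 - h) * j * Real.log 2 + h / 2 * j * Real.log 2 := by ring
      rw [l12]
      nlinarith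
  -- the sum over the cells
  have hP0 : ∀ w, 0 ≤ P1 p G₁ w := (P1_law hp G₁).nonneg
  have hsum : ∑ w, (if (2 : ℝ) ^ (κ * Q) ≤ ‖A (D (L w.2), L w.1)‖ ∧
      ‖A (D (L w.2), L w.1)‖ ≤ 2 ^ J₁ then P1 p G₁ w else 0) ≤
      ∑ i ∈ range (N + 1), ∑ w, (if (2 : ℝ) ^ ((1 - h / 2) * ((min (lev h j₀ i) J₁ : ℕ) : ℝ)) ≤
      ‖A (D (L w.2), L w.1)‖ ∧ ‖A (D (L w.2), L w.1)‖ ≤ ((2 ^ min (lev h j₀ i) J₁ : ℕ) : ℝ)
        then P1 p G₁ w else 0) := by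
    rw [Finset.sum_comm]
    refine Finset.sum_le_sum fun w _ => ?_
    have hnn : ∀ i ∈ range (N + 1), 0 ≤ (if (2 : ℝ) ^ ((1 - h / 2) *
        ((min (lev h j₀ i) J₁ : ℕ) : ℝ)) ≤ ‖A (D (L w.2), L w.1)‖ ∧
        ‖A (D (L w.2), L w.1)‖ ≤ ((2 ^ min (lev h j₀ i) J₁ : ℕ) : ℝ)
        then P1 p G₁ w else 0) := fun i _ => by
      split_ifs
      · exact hP0 w
      · exact le_rfl
    by_cases hw : (2 : ℝ) ^ (κ * Q) ≤ ‖A (D (L w.2), L w.1)‖ ∧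
      ‖A (D (L w.2), L w.1)‖ ≤ 2 ^ J₁
    · rw [if_pos hw]
      obtain ⟨i, hi, hc⟩ := lev_cov hh hh1 hJN hy hw.1 hw.2
      refine le_trans (le_of_eq ?_) (Finset.single_le_sum hnn hi)
      rw [if_pos hc]
    · rw [if_neg hw]
      exact Finset.sum_nonneg hnn
  refine hsum.trans ((Finset.sum_le_sum fun i _ => (hcell i).le).trans (le_of_eq ?_))
  rw [Finset.sum_const, Finset.card_range, nsmul_eq_mul, hR]
  push_cast
  field_simp

end Pool.PR13
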