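import Pool.Agent.H13.PR1.Cnt1

/-!
# One hop: the short windows with a small derivative

`bad_cnt`: there are few of them. `bad_mass`: a time which is full given `Z` is rarely in one of
them.
-/

set_option autoImplicit false

namespace Pool.PR13

open Finset Real
open Pool.Agent.H49.Ent Pool.Agent.H32.Dense Pool.STK Pool.OWN68 Pool.PR46 Pool.M5 Pool.M5.L31

/-- **Few short windows have a small derivative.** -/
theorem bad_cnt {k : ℕ} (hk : 1 ≤ k) {M S g k₀ : ℕ} (hM : 1 ≤ M) {A : Fin k → ℝ} {lam : ℝ}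
    (hA : 0 < ‖A‖) (hg : (2 : ℝ) ^ (-(k₀ : ℤ)) ≤ g * (S / (2 * M)))
    (hlam : (k : ℝ) * 2 ^ ((k - 1) + k₀ * (k - 1)) * lam < 1)
    (B : Finset ℤ) (hB : ∀ a ∈ B, |a * (S : ℤ)| ≤ 2 * (M : ℤ) ∧
      |dpv A ((a : ℝ) * S / (2 * M))| < lam * ‖A‖) : B.card ≤ k * g := by
  classical
  obtain ⟨n, rfl⟩ : ∃ n, k = n + 1 := ⟨k - 1, by omega⟩
  rw [Nat.add_sub_cancel] at hlam
  by_contra hcon
  push Not at hcon
  have hMr : (1 : ℝ) ≤ M := by exact_mod_cast hM
  have hM0 : (0 : ℝ) < 2 * M := by linarith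
  obtain ⟨c, hc⟩ : ∃ c, B.card = c := ⟨_, rfl⟩
  obtain ⟨e, he⟩ : ∃ e : Fin c ↪o ℤ, e = B.orderEmbOfFin hc := ⟨_, rfl⟩
  have hmem : ∀ i, e i ∈ B := fun i => by rw [he]; exact B.orderEmbOfFin_mem hc i
  have hgap : ∀ (i : ℕ) (hi : i < c) (j : ℕ) (hij : i + j < c), e ⟨i, hi⟩ + j ≤ e ⟨i + j, hij⟩ := by
    intro i hi j
    induction j with
    | zero => intro hij; simp
    | succ j ih =>
      intro hij
      have h1 := ih (by omega)
      have h2 : e ⟨i + j, by omega⟩ < e ⟨i + (j + 1), hij⟩ := by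
        rw [e.lt_iff_lt, Fin.lt_def]
        simp only
        omega
      push_cast
      linarith
  have hlt : ∀ j : Fin (n + 1), j.val * g < c := by
    intro j
    have h1 : j.val * g ≤ n * g := Nat.mul_le_mul_right _ (Nat.lt_succ_iff.mp j.2)
    have h2 : n * g ≤ (n + 1) * g := Nat.mul_le_mul_right _ (Nat.le_succ n)
    omega
  obtain ⟨nd, hnd⟩ : ∃ nd : Fin (n + 1) → ℤ, ∀ j, nd j = e ⟨j.val * g, hlt j⟩ := ⟨_, fun _ => rfl⟩
  obtain ⟨θ, hθ⟩ : ∃ θ : Fin (n + 1) → ℝ, ∀ j, θ j = (nd j : ℝ) * S / (2 * M) := ⟨_, fun _ => rfl⟩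
  have hndB : ∀ j, nd j ∈ B := fun j => by rw [hnd]; exact hmem _
  have h0 : ∀ j, |θ j| ≤ 1 := by
    intro j
    have h1 := (hB _ (hndB j)).1
    have h2 : |(nd j : ℝ) * S| ≤ 2 * M := by exact_mod_cast h1
    rw [hθ, abs_div, abs_of_pos hM0, div_le_one hM0]
    exact h2
  have hS0 : (0 : ℝ) ≤ S / (2 * M) := by positivity
  have hsep1 : ∀ j j' : Fin (n + 1), j < j' → (2 : ℝ) ^ (-(k₀ : ℤ)) ≤ |θ j - θ j'| := by
    intro j j' hjj
    have h1 : j.val * g + g ≤ j'.val * g := by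
      have : (j.val + 1) * g ≤ j'.val * g := Nat.mul_le_mul_right _ hjj
      linarith
    obtain ⟨d, hd⟩ : ∃ d, j'.val * g = j.val * g + d := ⟨j'.val * g - j.val * g, by omega⟩
    have hdg : g ≤ d := by omega
    have h2 := hgap (j.val * g) (hlt j) d (by rw [← hd]; exact hlt j')
    have h3 : nd j + d ≤ nd j' := by
      rw [hnd, hnd]
      refine h2.trans (le_of_eq ?_)
      congr 1
      ext
      exact hd.symm
    have h4 : (nd j : ℝ) + d ≤ nd j' := by exact_mod_cast h3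
    have h5 : (g : ℝ) ≤ d := by exact_mod_cast hdg
    have h6 : (g : ℝ) ≤ (nd j' : ℝ) - nd j := by linarith
    rw [abs_sub_comm, hθ, hθ, ← sub_div, ← sub_mul, mul_div_assoc]
    refine hg.trans ?_
    refine le_trans (mul_le_mul_of_nonneg_right h6 hS0) (le_abs_self _)
  have hsep : ∀ j j', j ≠ j' → (2 : ℝ) ^ (-(k₀ : ℤ)) ≤ |θ j - θ j'| := by
    intro j j' hjj
    rcases lt_or_gt_of_ne hjj with h | h
    · exact hsep1 j j' h
    · rw [abs_sub_comm]
      exact hsep1 j' j h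
  have hinj : Function.Injective θ := inj_of_sep hsep
  obtain ⟨A', hA'⟩ : ∃ A' : Fin (n + 1) → ℝ, ∀ a, A' a = A a * (a.val + 1 : ℝ) := ⟨_, fun _ => rfl⟩
  have hev : ∀ j, ∑ a, A' a * θ j ^ (a : ℕ) = dpv A (θ j) := by
    intro j
    unfold dpv
    refine Finset.sum_congr rfl fun a _ => ?_
    rw [hA']
    ring
  obtain ⟨a, -, ha⟩ := Finset.exists_mem_eq_sup' (Finset.univ_nonempty (α := Fin (n + 1)))
    (fun i => ‖A i‖)
  have ha' : ‖A‖ ≤ |A a| := by
    rw [pi_norm_le_iff_of_nonneg (abs_nonneg _)]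
    intro i
    have h1 := Finset.le_sup' (fun i => ‖A i‖) (Finset.mem_univ i)
    rw [ha] at h1
    simpa [Real.norm_eq_abs] using h1
  have h1 := lag_pol hinj A' a
  have h2 := lag_le (θ := θ) (f := fun j => ∑ a, A' a * θ j ^ (a : ℕ)) (M := lam * ‖A‖) h0 hsep
    (fun j => by
      rw [hev, hθ]
      exact (hB _ (hndB j)).2.le) a
  rw [h1] at h2
  have h3 : |A a| ≤ |A' a| := by
    rw [hA', abs_mul]
    have h4 : (1 : ℝ) ≤ |(a.val : ℝ) + 1| := by
      have : (0 : ℝ) ≤ a.val := Nat.cast_nonneg _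
      rw [abs_of_nonneg (by linarith)]
      linarith
    nlinarith [abs_nonneg (A a)]
  have h5 : (((n : ℝ) + 1) * 2 ^ (n + k₀ * n) * lam) * ‖A‖ < 1 * ‖A‖ := by
    refine mul_lt_mul_of_pos_right ?_ hA
    push_cast at hlam
    exact hlam
  have h6 : ((n : ℝ) + 1) * 2 ^ (n + k₀ * n) * (lam * ‖A‖) =
    (((n : ℝ) + 1) * 2 ^ (n + k₀ * n) * lam) * ‖A‖ := by ring
  rw [h6] at h2
  linarith

/-- The times of given short windows. -/
theorem card_win {M S : ℕ} (hS : 1 ≤ S) (B : Finset ℤ) :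
    ((Finset.Icc (-(M : ℤ)) M).filter fun T => T / (S : ℤ) ∈ B).card ≤ B.card * S := by
  classical
  have hSz : (0 : ℤ) < S := by exact_mod_cast hS
  refine Finset.card_le_mul_card_image_of_maps_to (f := fun T : ℤ => T / (S : ℤ)) (t := B) ?_ S ?_
    |>.trans (le_of_eq (mul_comm _ _))
  · intro T hT
    rw [Finset.mem_filter] at hT
    exact hT.2
  · intro a _
    refine (Finset.card_le_card (t := Finset.Ico (a * S) (a * S + S)) ?_).trans (le_of_eq ?_)
    · intro T hT
      rw [Finset.mem_filter, Finset.mem_filter] at hT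
      have h1 := Int.emod_add_mul_ediv T S
      have h2 := Int.emod_nonneg T hSz.ne'
      have h3 := Int.emod_lt_of_pos T hSz
      rw [hT.2] at h1
      rw [Finset.mem_Ico]
      constructor <;> linarith [mul_comm (S : ℤ) a]
    · rw [Int.card_Ico]
      simp

open Classical in
/-- **A full time is rarely in a short window with a small derivative.** -/
theorem bad_mass {Ω ζ : Type} [Fintype Ω] {q : Ω → ℝ} (hq : IsLaw q) {k : ℕ} (hk : 1 ≤ k)
    {M S g k₀ : ℕ} (hM : 1 ≤ M) (hS : 1 ≤ S) (hSM : S ≤ M) (hg1 : 1 ≤ g) (T : Ω → ℤ) (Z : Ω → ζ)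
    (A : ζ → Fin k → ℝ) {lam e : ℝ} (hT : ∀ ω, 0 < q ω → |T ω| ≤ (M : ℤ))
    (hg : (2 : ℝ) ^ (-(k₀ : ℤ)) ≤ g * (S / (2 * M)))
    (hlam : (k : ℝ) * 2 ^ ((k - 1) + k₀ * (k - 1)) * lam < 1)
    (hfull : Real.log (2 * M + 1) - e ≤ CH q T Z) :
    law q (fun ω => 0 < ‖A (Z ω)‖ ∧
      |dpv (A (Z ω)) (((T ω / S : ℤ) : ℝ) * S / (2 * M))| < lam * ‖A (Z ω)‖) True *
      Real.log ((2 * M + 1) / (k * g * S)) ≤ e + Real.log 2 := by
  have h0 := hq.nonneg
  have hMr : (1 : ℝ) ≤ M := by exact_mod_cast hM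
  have hSr : (1 : ℝ) ≤ S := by exact_mod_cast hS
  have hgr : (1 : ℝ) ≤ g := by exact_mod_cast hg1
  have hkr : (1 : ℝ) ≤ k := by exact_mod_cast hk
  have hkgS : (0 : ℝ) < k * g * S := by positivity
  obtain ⟨E, hE⟩ : ∃ E : Ω → Prop, E = fun ω => 0 < ‖A (Z ω)‖ ∧
      |dpv (A (Z ω)) (((T ω / S : ℤ) : ℝ) * S / (2 * M))| < lam * ‖A (Z ω)‖ := ⟨_, rfl⟩
  obtain ⟨Bd, hBd⟩ : ∃ Bd : ζ → Finset ℤ, ∀ z, Bd z = (Finset.Icc (-(2 * M : ℤ)) (2 * M)).filter
      (fun a => |a * (S : ℤ)| ≤ 2 * (M : ℤ) ∧ 0 < ‖A z‖ ∧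
        |dpv (A z) ((a : ℝ) * S / (2 * M))| < lam * ‖A z‖) := ⟨_, fun _ => rfl⟩
  have hBdc : ∀ z, (Bd z).card ≤ k * g := by
    intro z
    by_cases hz : 0 < ‖A z‖
    · refine bad_cnt hk hM hz hg hlam _ fun a ha => ?_
      rw [hBd, Finset.mem_filter] at ha
      exact ⟨ha.2.1, ha.2.2.2⟩
    · have : Bd z = ∅ := by
        rw [hBd, Finset.filter_eq_empty_iff]
        rintro a - ⟨-, h, -⟩
        exact hz h
      rw [this]
      simp
  rw [← hE]
  -- the splitting
  have h1 : CH q T Z ≤ Real.log 2 + CH q T (fun ω => (E ω, Z ω)) := by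
    have g1 := CH_le_add h0 T E Z
    have g2 : CH q E Z ≤ Real.log 2 := by
      refine (CH_le_card h0 hq.sum_one E Z (fun _ => {True, False}) (fun ω _ => ?_)).trans ?_
      · by_cases h : E ω <;> simp [h]
      · rw [Ex_const hq.sum_one]
        refine Real.log_le_log (by simp) ?_
        exact_mod_cast Finset.card_le_two
    linarith
  have h2 : CH q T (fun ω => (E ω, Z ω)) ≤ Ex q (fun ω => if E ω then Real.log (k * g * S) else
      Real.log (2 * M + 1)) := by
    refine (CH_le_card h0 hq.sum_one T (fun ω => (E ω, Z ω)) (fun w => if w.1 then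
      ((Finset.Icc (-(M : ℤ)) M).filter fun T => T / (S : ℤ) ∈ Bd w.2) else
        Finset.Icc (-(M : ℤ)) M) (fun ω hω => ?_)).trans ?_
    · have hTi : T ω ∈ Finset.Icc (-(M : ℤ)) M := by
        rw [Finset.mem_Icc]
        exact abs_le.mp (hT ω hω)
      dsimp only
      by_cases h : E ω
      · rw [if_pos h, Finset.mem_filter]
        refine ⟨hTi, ?_⟩
        obtain ⟨-, -, -, c4⟩ := win_start hM hS hSM (hT ω hω)
        rw [hE] at h
        rw [hBd, Finset.mem_filter, Finset.mem_Icc]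
        have c5 : |T ω / (S : ℤ)| ≤ 2 * (M : ℤ) := by
          rw [abs_mul] at c4
          have c6 : (1 : ℤ) ≤ |(S : ℤ)| := by
            rw [abs_of_nonneg (by positivity)]
            exact_mod_cast hS
          nlinarith [abs_nonneg (T ω / (S : ℤ))]
        exact ⟨abs_le.mp c5, c4, h⟩
      · rw [if_neg h]
        exact hTi
    · refine Ex_mono h0 fun ω hω => ?_
      dsimp only
      by_cases h : E ω
      · rw [if_pos h, if_pos h]
        refine Real.log_le_log ?_ ?_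
        · have : 0 < ((Finset.Icc (-(M : ℤ)) M).filter fun T => T / (S : ℤ) ∈ Bd (Z ω)).card := by
            refine Finset.card_pos.mpr ⟨T ω, ?_⟩
            rw [Finset.mem_filter, Finset.mem_Icc]
            refine ⟨abs_le.mp (hT ω hω), ?_⟩
            obtain ⟨-, -, -, c4⟩ := win_start hM hS hSM (hT ω hω)
            rw [hE] at h
            rw [hBd, Finset.mem_filter, Finset.mem_Icc]
            have c5 : |T ω / (S : ℤ)| ≤ 2 * (M : ℤ) := by
              rw [abs_mul] at c4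
              have c6 : (1 : ℤ) ≤ |(S : ℤ)| := by
                rw [abs_of_nonneg (by positivity)]
                exact_mod_cast hS
              nlinarith [abs_nonneg (T ω / (S : ℤ))]
            exact ⟨abs_le.mp c5, c4, h⟩
          exact_mod_cast this
        · have g1 := card_win (M := M) hS (Bd (Z ω))
          have g2 := Nat.mul_le_mul_right S (hBdc (Z ω))
          exact_mod_cast g1.trans g2
      · rw [if_neg h, if_neg h]
        refine le_of_eq ?_
        rw [Int.card_Icc]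
        have : ((M : ℤ) + 1 - -(M : ℤ)).toNat = 2 * M + 1 := by omega
        rw [this]
        push_cast
        rfl
  have h3 : Ex q (fun ω => if E ω then Real.log (k * g * S) else Real.log (2 * M + 1)) =
      Real.log (2 * M + 1) - law q E True * Real.log ((2 * M + 1) / (k * g * S)) := by
    have e1 : law q E True = ∑ ω, if E ω then q ω else 0 := by
      unfold law
      refine Finset.sum_congr rfl fun ω _ => ?_
      simp only [eq_iff_iff, iff_true]
    rw [Real.log_div (by positivity) hkgS.ne', e1, Finset.sum_mul]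
    generalize Real.log (k * g * S) = l1
    generalize Real.log (2 * M + 1) = l2
    have e2 : l2 = ∑ ω, q ω * l2 := by
      rw [← Finset.sum_mul, hq.sum_one, one_mul]
    have e3 : l2 - ∑ ω, (if E ω then q ω else 0) * (l2 - l1) =
        ∑ ω, (q ω * l2 - (if E ω then q ω else 0) * (l2 - l1)) := by
      rw [Finset.sum_sub_distrib, ← e2]
    rw [e3]
    unfold Ex
    refine Finset.sum_congr rfl fun ω _ => ?_
    dsimp only
    by_cases h : E ω
    · rw [if_pos h, if_pos h]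
      ring
    · rw [if_neg h, if_neg h]
      ring
  linarith

end Pool.PR13
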