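import Pool.Agent.H13.PR1.One

/-!
# One hop, one cell

`one_cell`: the coefficients of the displacement are rarely in the cell `[V, m]`.
-/

set_option autoImplicit false

namespace Pool.PR13

open Finset Real
open Pool.Agent.H49.Ent Pool.Agent.H32.Dense Pool.STK Pool.OWN68 Pool.PR46

open Classical in
/-- **One hop, one cell.** -/
theorem one_cell {Ω Λ Γ₁ 𝒞 𝒟 𝒩₁ : Type} [Fintype Ω] {p : Ω → ℝ} (hp : IsLaw p)
    {M K m S g k k₀ : ℕ} (hM : 1 ≤ M) (hS : 1 ≤ S) (hSM : S ≤ M) (hg1 : 1 ≤ g) (hm1 : 1 ≤ m)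
    (hk : 1 ≤ k) (L : Ω → Λ) (t : Ω → ℤ) (G₁ : Ω → Γ₁) (C : Λ → 𝒞)
    (D : Λ → 𝒟) (N₁ : Λ → 𝒩₁) (u n : Λ → ℤ → ℤ) (A : 𝒟 × Λ → Fin k → ℝ) (a b : Zo Λ 𝒟 → ℝ)
    {V R e U lam B : ℝ} (hB : 1 ≤ B) (hmM : (m : ℝ) ≤ M * B) (hV : 1 ≤ V) (hR : 0 < R) (he : 0 ≤ e) (hlam : 0 < lam) (hlam1 : lam ≤ 1)
    (hh : (k : ℝ) ^ 3 * (S / (2 * M)) ≤ lam / 2)
    (hg : (2 : ℝ) ^ (-(k₀ : ℤ)) ≤ g * (S / (2 * M)))
    (hlk : (k : ℝ) * 2 ^ ((k - 1) + k₀ * (k - 1)) * lam < 1)
    (ht : ∀ ω, 0 < p ω → |t ω| ≤ (M : ℤ))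
    (hG₁ : ∀ ω ω', 0 < p ω → 0 < p ω' → G₁ ω = G₁ ω' → C (L ω) = C (L ω') ∧ N₁ (L ω) = N₁ (L ω'))
    (hfull : Real.log (2 * M + 1) - e ≤ CH p t L)
    (hI₁ : CH p (fun ω => D (L ω)) (fun ω => (N₁ (L ω), C (L ω))) - e ≤
      CH p (fun ω => D (L ω)) G₁)
    (hdis : ∀ ω₀ ω₁, 0 < p ω₀ → 0 < p ω₁ → G₁ ω₀ = G₁ ω₁ → ∀ τ : ℤ, |τ| ≤ (M : ℤ) →
      |(u (L ω₁) τ : ℝ) - a (τ, (D (L ω₁), L ω₀))| ≤ K ∧
      |(n (L ω₁) τ : ℝ) - (b (τ, (D (L ω₁), L ω₀)) -
        pv (A (D (L ω₁), L ω₀)) ((t ω₀ : ℝ) / (2 * M)))| ≤ K)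
    (hNF : ∀ q : Ω → ℝ, IsLaw q → (∀ ω, q ω ≤ R * p ω) →
      CH q (fun ω => n (L ω) (t ω)) (fun ω => ((n (L ω) (t ω) / m, u (L ω) (t ω)),
        (t ω, (C (L ω), D (L ω))))) ≤ U)
    (hbad : R * (3 * e + Real.log 2) < Real.log ((2 * M + 1) / (k * g * S)))
    (hbig : U + R * (3 * e + Real.log 2) + Real.log (4 * M / S + 3) - Real.log lam +
      Real.log B + Real.log (co1 K k) < Real.log V) :
    ∑ w, (if V ≤ ‖A (D (L w.2), L w.1)‖ ∧ ‖A (D (L w.2), L w.1)‖ ≤ m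
      then P1 p G₁ w else 0) < 2 / R := by
  have h0 := hp.nonneg
  have hMr : (1 : ℝ) ≤ M := by exact_mod_cast hM
  have hL2 := P2_law hp L G₁
  obtain ⟨P, hP⟩ : ∃ P, P = P2 p L G₁ := ⟨_, rfl⟩
  obtain ⟨φ, hφ⟩ : ∃ φ : Ω × Ω → 𝒟 × Λ, φ = fun w => (D (L w.2), L w.1) := ⟨_, rfl⟩
  obtain ⟨Z, hZ⟩ : ∃ Z : (Ω × Ω) × Ω → Zo Λ 𝒟, Z = fun w => (t w.2, (D (L w.1.2), L w.1.1)) :=
    ⟨_, rfl⟩
  obtain ⟨E0, hE0⟩ : ∃ E0 : Ω × Ω → Prop, E0 = fun w => V ≤ ‖A (φ w)‖ ∧ ‖A (φ w)‖ ≤ m := ⟨_, rfl⟩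
  obtain ⟨Bd, hBd⟩ : ∃ Bd : (Ω × Ω) × Ω → Prop, Bd = fun w => 0 < ‖A (Z w).2‖ ∧
      |dpv (A (Z w).2) (((t w.1.1 / S : ℤ) : ℝ) * S / (2 * M))| < lam * ‖A (Z w).2‖ := ⟨_, rfl⟩
  obtain ⟨E, hE⟩ : ∃ E : (Ω × Ω) × Ω → Prop, E = fun w => E0 w.1 ∧ ¬ Bd w := ⟨_, rfl⟩
  have el1 : ∑ w, (if V ≤ ‖A (D (L w.2), L w.1)‖ ∧ ‖A (D (L w.2), L w.1)‖ ≤ m
      then P1 p G₁ w else 0) = law P (fun w => E0 w.1) True := by
    have h1 : law P (fun w => E0 w.1) True = law (P1 p G₁) E0 True := by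
      rw [hP]
      exact (P2_f hp L G₁).law E0 True
    rw [h1]
    unfold law
    refine Finset.sum_congr rfl fun w _ => ?_
    simp only [hE0, hφ, eq_iff_iff, iff_true]
  rw [el1]
  by_contra hcon
  push Not at hcon
  rw [← hP] at hL2
  have hR' : 0 < 1 / R := by positivity
  have hT1 : ∀ w, 0 < P w → |t w.1.1| ≤ (M : ℤ) := fun w hw => by
    rw [hP] at hw
    exact ht _ (P1_pos hp G₁ (P2_pos hp L G₁ hw).1).1
  have hτ : ∀ w, 0 < P w → |t w.2| ≤ (M : ℤ) := fun w hw => by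
    rw [hP] at hw
    exact ht _ (P2_pos hp L G₁ hw).2.1
  have hF : Real.log (2 * M + 1) - 3 * e ≤ CH P (fun w => t w.1.1) Z := by
    rw [hP, hZ]
    exact full_tau hp L t G₁ C D N₁ hG₁ (fun {A' T'} _ {q} hq pr Z' hpr =>
      CH_le_box hq (fun a => t (pr a)) Z' fun a ha => ht _ (hpr a ha)) hfull hI₁
  -- the bad windows
  have hBm : law P Bd True < 1 / R := by
    have h1 := bad_mass hL2 hk hM hS hSM hg1 (fun w => t w.1.1) Z (fun z => A z.2) hT1 hg hlk hF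
    rw [← hBd] at h1
    have h2 : 0 < Real.log ((2 * M + 1) / (k * g * S)) := by
      have : 0 < 3 * e + Real.log 2 := by
        have := Real.log_pos (by norm_num : (1 : ℝ) < 2)
        linarith
      nlinarith
    rw [lt_div_iff₀ hR]
    have h3 : law P Bd True * (R * (3 * e + Real.log 2)) ≤
        law P Bd True * Real.log ((2 * M + 1) / (k * g * S)) :=
      mul_le_mul_of_nonneg_left hbad.le (law_nonneg hL2.nonneg _ _)
    have h4 : 0 < 3 * e + Real.log 2 := by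
      have := Real.log_pos (by norm_num : (1 : ℝ) < 2)
      linarith
    by_contra hc
    push Not at hc
    have h5 : Real.log ((2 * M + 1) / (k * g * S)) ≤ law P Bd True * R *
        Real.log ((2 * M + 1) / (k * g * S)) := by nlinarith
    have h6 : law P Bd True * R * Real.log ((2 * M + 1) / (k * g * S)) =
      R * (law P Bd True * Real.log ((2 * M + 1) / (k * g * S))) := by ring
    rw [h6] at h5
    have h7 := mul_le_mul_of_nonneg_left h1 hR.le
    linarith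
  have hE1 : 1 / R ≤ law P E True := by
    have h1 : law P (fun w => E0 w.1) True ≤ law P E True + law P Bd True := by
      unfold law
      rw [← Finset.sum_add_distrib]
      refine Finset.sum_le_sum fun w _ => ?_
      have h2 := hL2.nonneg w
      simp only [eq_iff_iff, iff_true, hE]
      by_cases g1 : E0 w.1 <;> by_cases g2 : Bd w <;> simp [g1, g2, h2]
    have h3 : 2 / R = 1 / R + 1 / R := by ring
    rw [h3] at hcon
    linarith
  have hE0' : 0 < law P E True := hR'.trans_le hE1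
  obtain ⟨Q, hQ⟩ : ∃ Q, Q = cond P E True := ⟨_, rfl⟩
  have hQlaw : IsLaw Q := by
    rw [hQ]
    exact ⟨cond_nonneg hL2.nonneg E True, sum_cond P E hE0'.ne'⟩
  have hsup : ∀ w, 0 < Q w → 0 < P w ∧ E0 w.1 ∧ ¬ Bd w := by
    intro w hw
    rw [hQ] at hw
    obtain ⟨h1, h2⟩ := (cond_pos_iff hL2.nonneg E True w).mp hw
    have h3 : E w := of_eq_true h2
    rw [hE] at h3
    exact ⟨h1, h3⟩
  have hFQ : Real.log (2 * M + 1) - R * (3 * e + Real.log 2) ≤ CH Q (fun w => t w.1.1) Z := by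
    have h1 := deficit_ev2 hL2 (fun w => t w.1.1) Z (L := Real.log (2 * M + 1)) (e := 3 * e) hR'
      (by linarith) (fun q hq hqp => CH_le_box hq (fun w => t w.1.1) Z fun w hw =>
        hT1 w (hqp w hw)) hF E hE1
    rw [← hQ] at h1
    have h2 : (3 * e + Real.log 2) / (1 / R) = R * (3 * e + Real.log 2) := by
      field_simp
    rw [h2] at h1
    exact h1
  have hφZ : ∀ w : (Ω × Ω) × Ω, (Z w).2 = φ w.1 := fun w => by rw [hZ, hφ]
  -- the core
  have hcore := one_core hQlaw (K := K) (m := m) hM hS hSM hm1 (fun w => t w.1.1)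
    (fun w => u (L w.1.2) (t w.2)) (fun w => n (L w.1.2) (t w.2)) Z (fun z => A z.2) a b hB hmM hV hlam
    hlam1 hh (fun w hw => hT1 w (hsup w hw).1)
    (fun w hw => by
      obtain ⟨g1, -, -⟩ := hsup w hw
      have g2 := hτ w g1
      rw [hP] at g1
      obtain ⟨a1, a2, a3⟩ := P2_pos hp L G₁ g1
      obtain ⟨b1, b2, b3⟩ := P1_pos hp G₁ a1
      rw [hZ]
      exact (hdis _ _ b1 b2 b3 (t w.2) g2).1)
    (fun w hw => by
      obtain ⟨g1, -, -⟩ := hsup w hw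
      have g2 := hτ w g1
      rw [hP] at g1
      obtain ⟨a1, a2, a3⟩ := P2_pos hp L G₁ g1
      obtain ⟨b1, b2, b3⟩ := P1_pos hp G₁ a1
      rw [hZ]
      exact (hdis _ _ b1 b2 b3 (t w.2) g2).2)
    (fun w hw => by
      have g1 := (hsup w hw).2.1
      rw [hE0] at g1
      try dsimp only
      rw [hφZ]
      exact g1.1)
    (fun w hw => by
      have g1 := (hsup w hw).2.1
      rw [hE0] at g1
      try dsimp only
      rw [hφZ]
      exact g1.2)
    (fun w hw => by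
      have g1 := (hsup w hw).2.2
      have g2 := (hsup w hw).2.1
      rw [hE0] at g2
      rw [hBd] at g1
      dsimp only at g1 ⊢
      push Not at g1
      refine g1 ?_
      rw [hφZ]
      linarith [g2.1])
  -- the nonfull coordinate
  have hd : CH Q (fun w => n (L w.1.2) (t w.2)) (fun w => (n (L w.1.2) (t w.2) / (m : ℤ),
      (u (L w.1.2) (t w.2), Z w))) ≤ U := by
    have e1 : ∀ w, 0 < Q w → L w.1.2 = L w.2 := fun w hw => by
      have g1 := (hsup w hw).1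
      rw [hP] at g1
      exact (P2_pos hp L G₁ g1).2.2
    have e2 : ∀ w, 0 < Q w → C (L w.1.1) = C (L w.2) := fun w hw => by
      have g1 := (hsup w hw).1
      rw [hP] at g1
      obtain ⟨a1, a2, a3⟩ := P2_pos hp L G₁ g1
      obtain ⟨b1, b2, b3⟩ := P1_pos hp G₁ a1
      rw [(hG₁ _ _ b1 b2 b3).1, a3]
    have h1 : CH Q (fun w => n (L w.1.2) (t w.2)) (fun w => (n (L w.1.2) (t w.2) / (m : ℤ),
        (u (L w.1.2) (t w.2), Z w))) ≤ CH Q (fun w => n (L w.2) (t w.2))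
        (fun w => ((n (L w.2) (t w.2) / (m : ℤ), u (L w.2) (t w.2)),
          (t w.2, (C (L w.2), D (L w.2))))) := by
      have h2 : CH Q (fun w => n (L w.1.2) (t w.2)) (fun w => (n (L w.1.2) (t w.2) / (m : ℤ),
          (u (L w.1.2) (t w.2), Z w))) = CH Q (fun w => n (L w.2) (t w.2))
          (fun w => (n (L w.1.2) (t w.2) / (m : ℤ), (u (L w.1.2) (t w.2), Z w))) := by
        refine CH_congr hQlaw.nonneg ?_ ?_ (fun _ _ _ _ h => h) (fun _ _ _ _ h => h)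
        · intro w w' hw hw' hz
          have h3 := (Prod.ext_iff.mp hz).1
          try dsimp only at h3 ⊢
          rw [← e1 w hw, ← e1 w' hw', h3]
        · intro w w' hw hw' hz
          have h3 := (Prod.ext_iff.mp hz).1
          try dsimp only at h3 ⊢
          rw [e1 w hw, e1 w' hw', h3]
      rw [h2]
      refine CH_mono_cond hQlaw.nonneg fun w w' hw hw' hz => ?_
      try dsimp only at hz ⊢
      have z1 : n (L w.1.2) (t w.2) / (m : ℤ) = n (L w'.1.2) (t w'.2) / (m : ℤ) :=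
        (Prod.ext_iff.mp hz).1
      have z2 : u (L w.1.2) (t w.2) = u (L w'.1.2) (t w'.2) :=
        (Prod.ext_iff.mp (Prod.ext_iff.mp hz).2).1
      have z3 : Z w = Z w' := (Prod.ext_iff.mp (Prod.ext_iff.mp hz).2).2
      rw [hZ] at z3
      have z4 : t w.2 = t w'.2 := (Prod.ext_iff.mp z3).1
      have z5 : D (L w.1.2) = D (L w'.1.2) := (Prod.ext_iff.mp (Prod.ext_iff.mp z3).2).1
      have z6 : L w.1.1 = L w'.1.1 := (Prod.ext_iff.mp (Prod.ext_iff.mp z3).2).2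
      rw [← e2 w hw, ← e2 w' hw', ← e1 w hw, ← e1 w' hw', z1, z2, z4, z5, z6]
    refine h1.trans ?_
    have h3 : CH Q (fun w => n (L w.2) (t w.2)) (fun w => ((n (L w.2) (t w.2) / (m : ℤ),
        u (L w.2) (t w.2)), (t w.2, (C (L w.2), D (L w.2))))) =
        CH (fun ω => law Q (fun w => w.2) ω) (fun ω => n (L ω) (t ω))
          (fun ω => ((n (L ω) (t ω) / (m : ℤ), u (L ω) (t ω)), (t ω, (C (L ω), D (L ω))))) := by
      unfold CH
      rw [← H_eq_of_marginal (q := Q) (p := fun ω => law Q (fun w => w.2) ω) (fun w => w.2)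
        (fun ω => rfl) (fun ω => (n (L ω) (t ω), ((n (L ω) (t ω) / (m : ℤ), u (L ω) (t ω)),
          (t ω, (C (L ω), D (L ω)))))),
        ← H_eq_of_marginal (q := Q) (p := fun ω => law Q (fun w => w.2) ω) (fun w => w.2)
        (fun ω => rfl) (fun ω => ((n (L ω) (t ω) / (m : ℤ), u (L ω) (t ω)),
          (t ω, (C (L ω), D (L ω)))))]
    rw [h3]
    refine hNF _ ⟨fun ω => law_nonneg hQlaw.nonneg _ _, ?_⟩ fun ω => ?_
    · have h4 : ∑ ω, law Q (fun w => w.2) ω = ∑ w, Q w := by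
        unfold law
        rw [Finset.sum_comm]
        refine Finset.sum_congr rfl fun w _ => ?_
        rw [Finset.sum_ite_eq]
        simp
      rw [h4, hQlaw.sum_one]
    · have h4 : law Q (fun w => w.2) ω ≤ R * law P (fun w => w.2) ω := by
        unfold law
        rw [Finset.mul_sum]
        refine Finset.sum_le_sum fun w _ => ?_
        by_cases hu : w.2 = ω
        · rw [if_pos hu, if_pos hu, hQ]
          unfold Pool.Agent.H49.Ent.cond
          split_ifs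
          · rw [div_le_iff₀ hE0']
            have h5 : 1 ≤ R * law P E True := by
              have := mul_le_mul_of_nonneg_left hE1 hR.le
              rwa [mul_one_div_cancel hR.ne'] at this
            have h6 := hL2.nonneg w
            nlinarith
          · exact mul_nonneg hR.le (hL2.nonneg w)
        · rw [if_neg hu, if_neg hu, mul_zero]
      have h5 : law P (fun w => w.2) ω = p ω := by
        rw [hP]
        exact (P2_s hp L G₁) ω
      rwa [h5] at h4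
  have hlog : Real.log M ≤ Real.log (2 * M + 1) := Real.log_le_log (by linarith) (by linarith)
  linarith

end Pool.PR13
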