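import Pool.Agent.H46.PR.Two
import Pool.Agent.H31.M5.Lag

/-!
# One hop: counting

`pv A x = ∑ i, A i * x ^ (i + 1)`, `dpv` its derivative. `cnt_one`: the number of the times of one
short window at which `pv` is near a given number. `bad_cnt`: the number of the short windows on
which the derivative is small.
-/

set_option autoImplicit false

namespace Pool.PR13

open Finset Real
open Pool.Agent.H49.Ent Pool.Agent.H32.Dense Pool.STK Pool.OWN68 Pool.PR46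

variable {k : ℕ}

/-- A polynomial without constant term. -/
noncomputable def pv (A : Fin k → ℝ) (x : ℝ) : ℝ := ∑ i, A i * x ^ (i.val + 1)

/-- Its derivative. -/
noncomputable def dpv (A : Fin k → ℝ) (x : ℝ) : ℝ := ∑ i, A i * ((i.val + 1 : ℝ) * x ^ i.val)

theorem pv_deriv (A : Fin k → ℝ) (x : ℝ) : HasDerivAt (pv A) (dpv A x) x := by
  unfold pv dpv
  refine HasDerivAt.fun_sum fun i _ => ?_
  have h := (hasDerivAt_pow (i.val + 1) x).const_mul (A i)
  simpa using h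

theorem pow_lip {x y : ℝ} (hx : |x| ≤ 1) (hy : |y| ≤ 1) (i : ℕ) :
    |x ^ i - y ^ i| ≤ i * |x - y| := by
  induction i with
  | zero => simp
  | succ i ih =>
    have e : x ^ (i + 1) - y ^ (i + 1) = x * (x ^ i - y ^ i) + (x - y) * y ^ i := by ring
    rw [e]
    refine (abs_add_le _ _).trans ?_
    rw [abs_mul, abs_mul, abs_pow]
    have h1 : |x| * |x ^ i - y ^ i| ≤ 1 * (i * |x - y|) :=
      mul_le_mul hx ih (abs_nonneg _) (by norm_num)
    have h2 : |x - y| * |y| ^ i ≤ |x - y| * 1 :=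
      mul_le_mul_of_nonneg_left (pow_le_one₀ (abs_nonneg _) hy) (abs_nonneg _)
    push_cast
    linarith

theorem dpv_lip {A : Fin k → ℝ} {F x y : ℝ} (hF : ∀ i, |A i| ≤ F) (hx : |x| ≤ 1) (hy : |y| ≤ 1) :
    |dpv A x - dpv A y| ≤ k ^ 3 * F * |x - y| := by
  unfold dpv
  rw [← Finset.sum_sub_distrib]
  refine (Finset.abs_sum_le_sum_abs _ _).trans ?_
  have h1 : ∀ i ∈ (univ : Finset (Fin k)), |A i * ((i.val + 1 : ℝ) * x ^ i.val) -
      A i * ((i.val + 1 : ℝ) * y ^ i.val)| ≤ k ^ 2 * F * |x - y| := by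
    intro i _
    have e : A i * ((i.val + 1 : ℝ) * x ^ i.val) - A i * ((i.val + 1 : ℝ) * y ^ i.val) =
        A i * ((i.val + 1 : ℝ) * (x ^ i.val - y ^ i.val)) := by ring
    rw [e, abs_mul, abs_mul]
    have g0 : 0 ≤ F := (abs_nonneg _).trans (hF i)
    have gi : ((i.val : ℝ) + 1) ≤ k := by exact_mod_cast i.2
    have gi' : ((i.val : ℝ)) ≤ k := by linarith
    have gi0 : (0 : ℝ) ≤ i.val := Nat.cast_nonneg _
    have g1 : |(i.val : ℝ) + 1| ≤ k := by
      rw [abs_of_nonneg (by linarith)]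
      exact gi
    have g2 : |x ^ i.val - y ^ i.val| ≤ k * |x - y| :=
      (pow_lip hx hy i.val).trans (mul_le_mul_of_nonneg_right gi' (abs_nonneg _))
    have g3 : |(i.val : ℝ) + 1| * |x ^ i.val - y ^ i.val| ≤ k * (k * |x - y|) :=
      mul_le_mul g1 g2 (abs_nonneg _) (Nat.cast_nonneg _)
    have g4 := mul_le_mul (hF i) g3 (by positivity) g0
    refine g4.trans (le_of_eq (by ring))
  refine (Finset.sum_le_sum h1).trans (le_of_eq ?_)
  rw [Finset.sum_const, Finset.card_univ, Fintype.card_fin, nsmul_eq_mul]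
  ring

/-- The polynomial is bi-Lipschitz on a short window. -/
theorem pv_exp {A : Fin k → ℝ} {F lam h c x y : ℝ} (hF0 : 0 ≤ F) (hF : ∀ i, |A i| ≤ F)
    (hc : |c| ≤ 1) (hx : |x| ≤ 1) (hy : |y| ≤ 1) (hxc : |x - c| ≤ h) (hyc : |y - c| ≤ h)
    (hh : (k : ℝ) ^ 3 * h ≤ lam / 2) (hd : lam * F ≤ |dpv A c|) :
    lam * F / 2 * |x - y| ≤ |pv A x - pv A y| := by
  have key : ∀ {x y : ℝ}, |x| ≤ 1 → |y| ≤ 1 → |x - c| ≤ h → |y - c| ≤ h → x < y →
      lam * F / 2 * |x - y| ≤ |pv A x - pv A y| := by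
    intro x y hx hy hxc hyc hxy
    obtain ⟨ξ, hξ, e⟩ := exists_hasDerivAt_eq_slope (pv A) (dpv A) hxy
      (fun z _ => (pv_deriv A z).continuousAt.continuousWithinAt) (fun z _ => pv_deriv A z)
    have hyx : 0 < y - x := by linarith
    rw [eq_div_iff hyx.ne'] at e
    have e1 : |pv A x - pv A y| = |dpv A ξ| * |x - y| := by
      rw [← abs_mul]
      rw [abs_sub_comm, ← e, ← abs_neg]
      congr 1
      ring
    have hξ1 : |ξ| ≤ 1 := by
      rw [abs_le] at hx hy ⊢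
      constructor <;> linarith [hξ.1, hξ.2, hx.1, hy.2]
    have hξc : |ξ - c| ≤ h := by
      rw [abs_le] at hxc hyc ⊢
      constructor <;> linarith [hξ.1, hξ.2, hxc.1, hyc.2]
    have h1 := dpv_lip hF hξ1 hc
    have h2 : (k : ℝ) ^ 3 * F * |ξ - c| ≤ lam / 2 * F := by
      have g1 : (k : ℝ) ^ 3 * F * |ξ - c| ≤ (k : ℝ) ^ 3 * F * h :=
        mul_le_mul_of_nonneg_left hξc (by positivity)
      have g2 : (k : ℝ) ^ 3 * h * F ≤ lam / 2 * F := mul_le_mul_of_nonneg_right hh hF0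
      linarith
    have h3 : |dpv A c| - |dpv A ξ| ≤ |dpv A ξ - dpv A c| := by
      rw [abs_sub_comm (dpv A ξ)]
      exact abs_sub_abs_le_abs_sub _ _
    rw [e1]
    refine mul_le_mul_of_nonneg_right ?_ (abs_nonneg _)
    linarith
  rcases lt_trichotomy x y with h1 | h1 | h1
  · exact key hx hy hxc hyc h1
  · subst h1
    simp
  · rw [abs_sub_comm x y, abs_sub_comm (pv A x)]
    exact key hy hx hyc hxc h1

/-- The start of the short window of a time. -/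
theorem win_start {M S : ℕ} (hM : 1 ≤ M) (hS : 1 ≤ S) (hSM : S ≤ M) {T : ℤ} (hT : |T| ≤ (M : ℤ)) :
    |((T / S : ℤ) : ℝ) * S / (2 * M)| ≤ 1 ∧
      |(T : ℝ) / (2 * M) - ((T / S : ℤ) : ℝ) * S / (2 * M)| ≤ S / (2 * M) ∧
      |(T : ℝ) / (2 * M)| ≤ 1 ∧ |(T / S : ℤ) * (S : ℤ)| ≤ 2 * (M : ℤ) := by
  have hMr : (1 : ℝ) ≤ M := by exact_mod_cast hM
  have hM0 : (0 : ℝ) < 2 * M := by linarith
  have hSz : (0 : ℤ) < S := by exact_mod_cast hS
  have h1 := Int.emod_add_mul_ediv T S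
  have h2 := Int.emod_nonneg T hSz.ne'
  have h3 := Int.emod_lt_of_pos T hSz
  have hTa := abs_le.mp hT
  have hSMz : (S : ℤ) ≤ M := by exact_mod_cast hSM
  have e1 : (T / S : ℤ) * (S : ℤ) = T - T % S := by linarith [mul_comm (T / S : ℤ) (S : ℤ)]
  have b1 : |(T / S : ℤ) * (S : ℤ)| ≤ 2 * (M : ℤ) := by
    rw [e1, abs_le]
    constructor <;> linarith
  have b1r : |((T / S : ℤ) : ℝ) * S| ≤ 2 * M := by exact_mod_cast b1
  have e2 : (T : ℝ) - ((T / S : ℤ) : ℝ) * S = ((T % S : ℤ) : ℝ) := by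
    have : T - (T / S : ℤ) * (S : ℤ) = T % S := by linarith
    exact_mod_cast this
  refine ⟨?_, ?_, ?_, b1⟩
  · rw [abs_div, abs_of_pos hM0, div_le_one hM0]
    exact b1r
  · rw [← sub_div, e2, abs_div, abs_of_pos hM0]
    refine div_le_div_of_nonneg_right ?_ hM0.le
    rw [abs_of_nonneg (by exact_mod_cast h2)]
    exact_mod_cast h3.le
  · have hTr : |(T : ℝ)| ≤ M := by exact_mod_cast hT
    rw [abs_div, abs_of_pos hM0, div_le_one hM0]
    linarith

/-- **The count.** -/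
theorem cnt_one {M S : ℕ} (hM : 1 ≤ M) (hS : 1 ≤ S) (hSM : S ≤ M) {A : Fin k → ℝ}
    {F lam K β : ℝ} (hF0 : 0 < F) (hlam : 0 < lam) (hF : ∀ i, |A i| ≤ F) (hK : 0 ≤ K)
    (hh : (k : ℝ) ^ 3 * (S / (2 * M)) ≤ lam / 2) (a : ℤ)
    (hd : lam * F ≤ |dpv A ((a : ℝ) * S / (2 * M))|)
    (s : Finset ℤ) (hs : ∀ T ∈ s, |T| ≤ (M : ℤ) ∧ T / S = a ∧
      |pv A ((T : ℝ) / (2 * M)) - β| ≤ K) :
    (s.card : ℝ) ≤ 8 * K * M / (lam * F) + 1 := by
  have hMr : (1 : ℝ) ≤ M := by exact_mod_cast hM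
  have hM0 : (0 : ℝ) < 2 * M := by linarith
  have hlF : 0 < lam * F := mul_pos hlam hF0
  refine card_near s (by positivity) fun T hT T' hT' => ?_
  obtain ⟨a1, a2, a3⟩ := hs T hT
  obtain ⟨b1, b2, b3⟩ := hs T' hT'
  obtain ⟨c1, c2, c3, -⟩ := win_start hM hS hSM a1
  obtain ⟨d1, d2, d3, -⟩ := win_start hM hS hSM b1
  rw [a2] at c1 c2
  rw [b2] at d2
  have key := pv_exp (A := A) hF0.le hF c1 c3 d3 c2 d2 hh hd
  have h1 : |pv A ((T : ℝ) / (2 * M)) - pv A ((T' : ℝ) / (2 * M))| ≤ 2 * K := by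
    have e : pv A ((T : ℝ) / (2 * M)) - pv A ((T' : ℝ) / (2 * M)) =
      (pv A ((T : ℝ) / (2 * M)) - β) - (pv A ((T' : ℝ) / (2 * M)) - β) := by ring
    rw [e]
    refine (abs_sub _ _).trans ?_
    linarith
  have h2 : |(T : ℝ) / (2 * M) - (T' : ℝ) / (2 * M)| = |(T : ℝ) - T'| / (2 * M) := by
    rw [← sub_div, abs_div, abs_of_pos hM0]
  rw [h2] at key
  have h3 : lam * F / 2 * (|(T : ℝ) - T'| / (2 * M)) ≤ 2 * K := key.trans h1
  rw [le_div_iff₀ hlF]
  have h4 : lam * F / 2 * (|(T : ℝ) - T'| / (2 * M)) = |(T : ℝ) - T'| * (lam * F) / (4 * M) := by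
    field_simp
    ring
  rw [h4, div_le_iff₀ (by linarith)] at h3
  linarith

end Pool.PR13
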