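import Pool.Agent.H13.PR1.All
import Pool.Agent.H46.PR.Tie

/-!
# One hop, all sizes

`one_all`: the hypotheses on one law up to `δ Q`, the height `n` (to any number of its last digits)
nonfull given the height `u` on all events of mass at least `c₀`; then the coefficients of the
displacement of one hop are rarely larger than `2 ^ (κ Q)`, whatever their size.
-/

set_option autoImplicit false

namespace Pool.PR13

open Finset Real
open Pool.Agent.H49.Ent Pool.Agent.H32.Dense Pool.STK Pool.OWN68 Pool.PR46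
open Pool.BFL (Pb)

/-- The hypotheses for one hop, for one law. -/
structure OneH {Ω Λ Γ 𝒞 𝒟 𝒩 : Type} [Fintype Ω] (p : Ω → ℝ) (k K Q : ℕ) (δ c₀ h κ₁ Cc : ℝ)
    (L : Ω → Λ) (t : Ω → ℤ) (G : Ω → Γ) (C : Λ → 𝒞) (D : Λ → 𝒟) (N : Λ → 𝒩) (u n : Λ → ℤ → ℤ)
    (A : 𝒟 × Λ → Fin k → ℝ) (a b : Zo Λ 𝒟 → ℝ) : Prop where
  tb : ∀ ω, 0 < p ω → |t ω| ≤ ((2 ^ Q : ℕ) : ℤ)
  g : ∀ ω ω', 0 < p ω → 0 < p ω' → G ω = G ω' → C (L ω) = C (L ω') ∧ N (L ω) = N (L ω')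
  full : Real.log (2 * ((2 ^ Q : ℕ) : ℝ) + 1) - δ * Q ≤ CH p t L
  i1 : CH p (fun ω => D (L ω)) (fun ω => (N (L ω), C (L ω))) - δ * Q ≤
    CH p (fun ω => D (L ω)) G
  /-- the displacement of the hop is a polynomial in the time of the record -/
  dis : ∀ ω₀ ω₁, 0 < p ω₀ → 0 < p ω₁ → G ω₀ = G ω₁ → ∀ τ : ℤ, |τ| ≤ ((2 ^ Q : ℕ) : ℤ) →
    |(u (L ω₁) τ : ℝ) - a (τ, (D (L ω₁), L ω₀))| ≤ K ∧
    |(n (L ω₁) τ : ℝ) - (b (τ, (D (L ω₁), L ω₀)) -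
      pv (A (D (L ω₁), L ω₀)) ((t ω₀ : ℝ) / (2 * ((2 ^ Q : ℕ) : ℝ))))| ≤ K
  nf : ∀ i j : ℕ, (i : ℝ) ≤ Cc * Q → (j : ℝ) ≤ κ₁ * Q → ∀ E : Ω → Prop, c₀ ≤ Pb p E →
    CH (cond p E True) (fun ω => n (L ω) (t ω) / 2 ^ i) (fun ω => ((n (L ω) (t ω) / 2 ^ (i + j),
      u (L ω) (t ω)), (t ω, (C (L ω), D (L ω))))) ≤ (1 - h) * j * Real.log 2 + δ * Q
  Ab : ∀ ω₀ ω₁, 0 < p ω₀ → 0 < p ω₁ → G ω₀ = G ω₁ →
    ‖A (D (L ω₁), L ω₀)‖ ≤ (2 : ℝ) ^ (Cc * Q)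

theorem pv_div {k : ℕ} (A : Fin k → ℝ) (c x : ℝ) : pv (fun i => A i / c) x = pv A x / c := by
  unfold pv
  rw [Finset.sum_div]
  exact Finset.sum_congr rfl fun i _ => by ring

theorem norm_div' {k : ℕ} (A : Fin k → ℝ) {c : ℝ} (hc : 0 < c) :
    ‖(fun i => A i / c)‖ = ‖A‖ / c := by
  have h : (fun i => A i / c) = c⁻¹ • A := by
    funext i
    rw [Pi.smul_apply, smul_eq_mul, div_eq_inv_mul]
  rw [h, norm_smul, norm_inv, Real.norm_eq_abs, abs_of_pos hc, div_eq_inv_mul]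

/-- Integer division. -/
theorem ediv_near (x : ℤ) (i : ℕ) : |((x / 2 ^ i : ℤ) : ℝ) - (x : ℝ) / 2 ^ i| ≤ 1 := by
  have hk : (0 : ℤ) < 2 ^ i := by positivity
  have a1 := Int.emod_add_mul_ediv x (2 ^ i)
  have b1 := Int.emod_nonneg x hk.ne'
  have c1 := Int.emod_lt_of_pos x hk
  have hk' : (0 : ℝ) < 2 ^ i := by positivity
  have a2 : (x : ℝ) = ((x % 2 ^ i : ℤ) : ℝ) + 2 ^ i * ((x / 2 ^ i : ℤ) : ℝ) := by
    exact_mod_cast a1.symm
  have b2 : (0 : ℝ) ≤ ((x % 2 ^ i : ℤ) : ℝ) := by exact_mod_cast b1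
  have c2 : ((x % 2 ^ i : ℤ) : ℝ) ≤ 2 ^ i := by exact_mod_cast c1.le
  have e : ((x / 2 ^ i : ℤ) : ℝ) - (x : ℝ) / 2 ^ i = -(((x % 2 ^ i : ℤ) : ℝ) / 2 ^ i) := by
    rw [eq_neg_iff_add_eq_zero]
    have : (x : ℝ) / 2 ^ i = ((x % 2 ^ i : ℤ) : ℝ) / 2 ^ i + ((x / 2 ^ i : ℤ) : ℝ) := by
      rw [a2]
      field_simp
    rw [this]
    ring
  rw [e, abs_neg, abs_of_nonneg (by positivity), div_le_one hk']
  exact c2

/-- **One hop, all sizes.** -/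
theorem one_all (k K : ℕ) (hk : 1 ≤ k) {h κ ε Cc : ℝ} (hh : 0 < h) (hh1 : h ≤ 1) (hκ : 0 < κ)
    (hκ1 : κ ≤ 1 / 2) (hε : 0 < ε) :
    ∃ δ₀ > 0, ∃ c₀ > 0, ∃ Q₀ : ℕ, ∀ Q ≥ Q₀, ∀ δ ≤ δ₀, ∀ {Ω Λ Γ 𝒞 𝒟 𝒩 : Type} [Fintype Ω]
      {p : Ω → ℝ}, IsLaw p → ∀ {L : Ω → Λ} {t : Ω → ℤ} {G : Ω → Γ} {C : Λ → 𝒞} {D : Λ → 𝒟}
      {N : Λ → 𝒩} {u n : Λ → ℤ → ℤ} {A : 𝒟 × Λ → Fin k → ℝ} {a b : Zo Λ 𝒟 → ℝ},
      0 ≤ δ → OneH p k K Q δ c₀ h (2 * κ) Cc L t G C D N u n A a b →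
      Pb (glue p p G G) (fun w => (2 : ℝ) ^ (κ * Q) ≤ ‖A (D (L w.2), L w.1)‖) ≤ ε := by
  classical
  have hl2 : 0 < Real.log 2 := Real.log_pos (by norm_num)
  have hl21 : Real.log 2 ≤ 1 := by
    have := Real.log_two_lt_d9
    linarith
  obtain ⟨M₀, hM₀⟩ : ∃ M₀ : ℕ, 2 * Cc / κ ≤ M₀ := exists_nat_ge _
  obtain ⟨R, δ', Q₁, hR0, hδ'0, hone⟩ := one_hop k (K + 1) hk (h := h / 2) (κ := κ)
    (ε := ε / (M₀ + 1)) (by positivity) (by linarith) hκ (by linarith) (by positivity)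
  obtain ⟨R₁, hR₁⟩ : ∃ R₁ : ℝ, R₁ = max R 1 := ⟨_, rfl⟩
  have hR₁1 : 1 ≤ R₁ := by rw [hR₁]; exact le_max_right _ _
  have hRR₁ : R ≤ R₁ := by rw [hR₁]; exact le_max_left _ _
  obtain ⟨θ, hθ⟩ : ∃ θ : ℝ, θ = δ' / 48 := ⟨_, rfl⟩
  have hθ0 : 0 < θ := by rw [hθ]; positivity
  obtain ⟨N₀, hN₀⟩ : ∃ N₀ : ℕ, R₁ / (1 + h / 2) ^ N₀ ≤ θ := by
    obtain ⟨N, hN⟩ := pow_unbounded_of_one_lt (R₁ / θ) (by linarith : 1 < 1 + h / 2)
    refine ⟨N, ?_⟩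
    rw [div_le_iff₀ (by positivity)]
    rw [div_lt_iff₀ hθ0] at hN
    linarith
  obtain ⟨c₀, hc₀⟩ : ∃ c₀ : ℝ, c₀ = θ * (h / 2) / (R₁ * (1 + h / 2)) := ⟨_, rfl⟩
  have hc₀0 : 0 < c₀ := by rw [hc₀]; positivity
  have hc₀2 : R₁ * c₀ * (1 + h / 2) / (h / 2) ≤ θ := by
    rw [hc₀]
    refine le_of_eq ?_
    field_simp
  obtain ⟨δ₀, hδ₀⟩ : ∃ δ₀ : ℝ, δ₀ = δ' / 8 := ⟨_, rfl⟩
  have hδ₀0 : 0 < δ₀ := by rw [hδ₀]; positivity
  obtain ⟨Q₂, hQ₂⟩ := exists_nat_ge (max (8 / κ) (max (4 * Real.log (N₀ + 1) / δ') 1))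
  refine ⟨δ₀, hδ₀0, c₀, hc₀0, max Q₁ Q₂, ?_⟩
  intro Q hQ δ hδ Ω Λ Γ 𝒞 𝒟 𝒩 _ p hp L t G C D N u n A a b hδ0 H
  have hQ1 : Q₁ ≤ Q := (le_max_left _ _).trans hQ
  have hQr : (Q₂ : ℝ) ≤ Q := by exact_mod_cast (le_max_right _ _).trans hQ
  have q1 : 8 / κ ≤ Q := ((le_max_left _ _).trans hQ₂).trans hQr
  have q2 : 4 * Real.log (N₀ + 1) / δ' ≤ Q :=
    (((le_max_left _ _).trans (le_max_right _ _)).trans hQ₂).trans hQr
  have q3 : 1 ≤ (Q : ℝ) :=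
    (((le_max_right _ _).trans (le_max_right _ _)).trans hQ₂).trans hQr
  rw [div_le_iff₀ (by positivity)] at q1 q2
  have hQ0 : (0 : ℝ) < Q := by linarith
  have hδQ : δ * Q ≤ δ' / 8 * Q := mul_le_mul_of_nonneg_right (hδ.trans (le_of_eq hδ₀)) hQ0.le
  -- the levels
  obtain ⟨J₁, hJ₁⟩ : ∃ J₁ : ℕ, J₁ = ⌊2 * κ * Q⌋₊ := ⟨_, rfl⟩
  have hJ1 : (J₁ : ℝ) ≤ 2 * κ * Q := by rw [hJ₁]; exact Nat.floor_le (by positivity)
  have hJ2 : 2 * κ * Q < J₁ + 1 := by rw [hJ₁]; exact Nat.lt_floor_add_one _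
  obtain ⟨s, hs⟩ : ∃ s : ℕ, s = ⌊κ * Q - 2⌋₊ := ⟨_, rfl⟩
  have hs1 : (s : ℝ) ≤ κ * Q - 2 := by rw [hs]; exact Nat.floor_le (by linarith)
  have hs2 : κ * Q - 2 < s + 1 := by rw [hs]; exact Nat.lt_floor_add_one _
  have hs3 : κ * Q / 2 ≤ s := by linarith
  have hs0 : (0 : ℝ) < s := by nlinarith
  -- one size
  have hcell : ∀ m : ℕ, ((m * s : ℕ) : ℝ) ≤ Cc * Q →
      Pb (glue p p G G) (fun w => (2 : ℝ) ^ (κ * Q) ≤ ‖A (D (L w.2), L w.1)‖ / 2 ^ (m * s) ∧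
        ‖A (D (L w.2), L w.1)‖ / 2 ^ (m * s) ≤ 2 ^ J₁) ≤ ε / (M₀ + 1) := by
    intro m hm
    obtain ⟨i, hi⟩ : ∃ i, i = m * s := ⟨_, rfl⟩
    rw [← hi] at hm ⊢
    have hi0 : (0 : ℝ) < 2 ^ i := by positivity
    have key := hone hp Q J₁ hQ1 (by linarith) (by nlinarith) L t G C D N u
      (fun l τ => n l τ / 2 ^ i) (fun z j => A z j / 2 ^ i) a (fun z => b z / 2 ^ i)
      (e := δ * Q) (by positivity) (by nlinarith) H.tb H.g H.full H.i1 ?_ ?_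
    · rw [← Pb_sum]
      refine le_trans (le_of_eq (Finset.sum_congr rfl fun w _ => ?_)) key
      rw [norm_div' _ hi0]
      unfold P1
      congr
    · intro ω₀ ω₁ h0 h1 hG τ hτ
      obtain ⟨d1, d2⟩ := H.dis ω₀ ω₁ h0 h1 hG τ hτ
      refine ⟨d1.trans (by push_cast; linarith), ?_⟩
      have hn := ediv_near (n (L ω₁) τ) i
      rw [pv_div]
      have e : ((n (L ω₁) τ / 2 ^ i : ℤ) : ℝ) - (b (τ, D (L ω₁), L ω₀) / 2 ^ i -
          pv (A (D (L ω₁), L ω₀)) ((t ω₀ : ℝ) / (2 * ((2 ^ Q : ℕ) : ℝ))) / 2 ^ i) =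
          (((n (L ω₁) τ / 2 ^ i : ℤ) : ℝ) - (n (L ω₁) τ : ℝ) / 2 ^ i) +
          ((n (L ω₁) τ : ℝ) - (b (τ, D (L ω₁), L ω₀) -
          pv (A (D (L ω₁), L ω₀)) ((t ω₀ : ℝ) / (2 * ((2 ^ Q : ℕ) : ℝ))))) / 2 ^ i := by
        field_simp
        ring
      rw [e]
      refine (abs_add_le _ _).trans ?_
      have g2 : |((n (L ω₁) τ : ℝ) - (b (τ, D (L ω₁), L ω₀) -
          pv (A (D (L ω₁), L ω₀)) ((t ω₀ : ℝ) / (2 * ((2 ^ Q : ℕ) : ℝ))))) / 2 ^ i| ≤ K := by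
        rw [abs_div, abs_of_pos hi0, div_le_iff₀ hi0]
        refine d2.trans ?_
        have : (1 : ℝ) ≤ 2 ^ i := one_le_pow₀ (by norm_num)
        have hK0 : (0 : ℝ) ≤ K := Nat.cast_nonneg K
        nlinarith
      have eK : ((K + 1 : ℕ) : ℝ) = 1 + K := by
        push_cast
        ring
      rw [eK]
      exact add_le_add hn g2
    · intro q hq hqR j hj1 hj2
      have hjr : (j : ℝ) ≤ 2 * κ * Q := by
        have : (j : ℝ) ≤ J₁ := by exact_mod_cast hj2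
        linarith
      have hjQ : (j : ℝ) ≤ Q := hjr.trans (by nlinarith)
      have hp0 := hp.nonneg
      have hdiv : ∀ ω, n (L ω) (t ω) / 2 ^ i / (((2 ^ j : ℕ) : ℤ)) =
          n (L ω) (t ω) / 2 ^ (i + j) := fun ω => by
        push_cast
        rw [Int.ediv_ediv_of_nonneg (by positivity), pow_add]
      have hcast2 : (fun ω => ((n (L ω) (t ω) / 2 ^ i / (((2 ^ j : ℕ) : ℤ)), u (L ω) (t ω)),
          (t ω, (C (L ω), D (L ω))))) = (fun ω => ((n (L ω) (t ω) / 2 ^ (i + j), u (L ω) (t ω)),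
          (t ω, (C (L ω), D (L ω))))) := by
        funext ω
        rw [hdiv]
      rw [hcast2]
      refine (Pool.NFD.nf_dens hp hq hR₁1 (fun ω => (hqR ω).trans
          (mul_le_mul_of_nonneg_right hRR₁ (hp0 ω))) hc₀0 (by positivity : 0 < h / 2)
        (fun ω => n (L ω) (t ω) / 2 ^ i) (fun ω => ((n (L ω) (t ω) / 2 ^ (i + j), u (L ω) (t ω)),
          (t ω, (C (L ω), D (L ω))))) (L := N₀) (U := (1 - h) * j * Real.log 2 + δ * Q)
          (V := (j + 2) * Real.log 2) ?_ ?_ (fun E hE => H.nf i j hm hjr E hE) ?_).trans ?_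
      · have : 0 ≤ (1 - h) * j * Real.log 2 := by
          have : 0 ≤ 1 - h := by linarith
          positivity
        positivity
      · positivity
      · intro r hr _
        refine CH_quot hr (fun ω => n (L ω) (t ω) / 2 ^ i) _ (k := j) fun ω ω' _ _ hz => ?_
        have h1 := (Prod.ext_iff.mp (Prod.ext_iff.mp hz).1).1
        have h2 : ∀ x : ℤ, x / 2 ^ i / 2 ^ j = x / 2 ^ (i + j) := fun x => by
          rw [Int.ediv_ediv_of_nonneg (by positivity), pow_add]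
        rw [h2, h2]
        exact h1
      · have g1 : (1 + h / 2) * ((1 - h) * j * Real.log 2) ≤ (1 - h / 2) * j * Real.log 2 := by
          have e1 : (1 + h / 2) * ((1 - h) * j * Real.log 2) =
              ((1 + h / 2) * (1 - h) * j) * Real.log 2 := by ring
          rw [e1]
          refine mul_le_mul_of_nonneg_right ?_ hl2.le
          refine mul_le_mul_of_nonneg_right ?_ (Nat.cast_nonneg _)
          nlinarith
        have g2 : (R₁ * c₀ * (1 + h / 2) / (h / 2) + R₁ / (1 + h / 2) ^ N₀) *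
            ((j + 2) * Real.log 2) ≤ δ' / 4 * Q := by
          have e1 : R₁ * c₀ * (1 + h / 2) / (h / 2) + R₁ / (1 + h / 2) ^ N₀ ≤ 2 * θ := by linarith
          have e2 : ((j : ℝ) + 2) * Real.log 2 ≤ 3 * Q := by
            have : ((j : ℝ) + 2) * Real.log 2 ≤ ((j : ℝ) + 2) * 1 :=
              mul_le_mul_of_nonneg_left hl21 (by positivity)
            linarith
          refine (mul_le_mul e1 e2 (by positivity) (by positivity)).trans ?_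
          rw [hθ]
          nlinarith
        have g3 : (1 + h / 2) * (δ * Q) ≤ δ' / 4 * Q := by
          have : (1 + h / 2) * (δ * Q) ≤ 2 * (δ * Q) :=
            mul_le_mul_of_nonneg_right (by linarith) (by positivity)
          linarith
        have g4 : Real.log (N₀ + 1) ≤ δ' / 4 * Q := by linarith
        have e5 : (1 + h / 2) * ((1 - h) * j * Real.log 2 + δ * Q) =
            (1 + h / 2) * ((1 - h) * j * Real.log 2) + (1 + h / 2) * (δ * Q) := by ring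
        rw [e5]
        have e6 : (1 - h / 2) * (j : ℝ) * Real.log 2 + δ' * Q =
          (1 - h / 2) * (j : ℝ) * Real.log 2 + δ' / 4 * Q * 4 := by ring
        have e7 : 0 < δ' / 4 * Q := by positivity
        linarith
  -- all sizes
  have hP0 : ∀ w, 0 ≤ glue p p G G w := (P1_law hp G).nonneg
  have hcov : Pb (glue p p G G) (fun w => (2 : ℝ) ^ (κ * Q) ≤ ‖A (D (L w.2), L w.1)‖) ≤
      ∑ m ∈ range (M₀ + 1), (if ((m * s : ℕ) : ℝ) ≤ Cc * Q then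
        Pb (glue p p G G) (fun w => (2 : ℝ) ^ (κ * Q) ≤ ‖A (D (L w.2), L w.1)‖ / 2 ^ (m * s) ∧
        ‖A (D (L w.2), L w.1)‖ / 2 ^ (m * s) ≤ 2 ^ J₁) else 0) := by
    rw [← Pb_sum]
    have e : ∀ m ∈ range (M₀ + 1), (if ((m * s : ℕ) : ℝ) ≤ Cc * Q then
        Pb (glue p p G G) (fun w => (2 : ℝ) ^ (κ * Q) ≤ ‖A (D (L w.2), L w.1)‖ / 2 ^ (m * s) ∧
        ‖A (D (L w.2), L w.1)‖ / 2 ^ (m * s) ≤ 2 ^ J₁) else 0) =
        ∑ w, (if ((m * s : ℕ) : ℝ) ≤ Cc * Q ∧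
          ((2 : ℝ) ^ (κ * Q) ≤ ‖A (D (L w.2), L w.1)‖ / 2 ^ (m * s) ∧
        ‖A (D (L w.2), L w.1)‖ / 2 ^ (m * s) ≤ 2 ^ J₁) then glue p p G G w else 0) := by
      intro m _
      by_cases hm : ((m * s : ℕ) : ℝ) ≤ Cc * Q
      · rw [if_pos hm, ← Pb_sum]
        refine Finset.sum_congr rfl fun w _ => ?_
        by_cases hc : (2 : ℝ) ^ (κ * Q) ≤ ‖A (D (L w.2), L w.1)‖ / 2 ^ (m * s) ∧
          ‖A (D (L w.2), L w.1)‖ / 2 ^ (m * s) ≤ 2 ^ J₁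
        · rw [if_pos hc, if_pos ⟨hm, hc⟩]
        · rw [if_neg hc, if_neg (fun h => hc h.2)]
      · rw [if_neg hm]
        symm
        refine Finset.sum_eq_zero fun w _ => if_neg (fun h => hm h.1)
    rw [Finset.sum_congr rfl e, Finset.sum_comm]
    refine Finset.sum_le_sum fun w _ => ?_
    obtain ⟨x, hx⟩ : ∃ x, x = ‖A (D (L w.2), L w.1)‖ := ⟨_, rfl⟩
    rw [← hx]
    have hnn : ∀ m ∈ range (M₀ + 1), 0 ≤ (if ((m * s : ℕ) : ℝ) ≤ Cc * Q ∧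
          ((2 : ℝ) ^ (κ * Q) ≤ x / 2 ^ (m * s) ∧ x / 2 ^ (m * s) ≤ 2 ^ J₁)
            then glue p p G G w else 0) := fun m _ => by
      split_ifs
      exacts [hP0 w, le_rfl]
    by_cases hb : (2 : ℝ) ^ (κ * Q) ≤ x
    · rw [if_pos hb]
      rcases (hP0 w).eq_or_lt with hz | hz
      · rw [← hz] at hnn ⊢
        exact Finset.sum_nonneg hnn
      · obtain ⟨a1, a2, a3⟩ := P1_pos hp G hz
        have hub := H.Ab w.1 w.2 a1 a2 a3
        rw [← hx] at hub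
        have hx0 : 0 < x := lt_of_lt_of_le (by positivity) hb
        -- the exponent
        obtain ⟨y, hy⟩ : ∃ y : ℝ, x = (2 : ℝ) ^ y :=
          ⟨Real.logb 2 x, (Real.rpow_logb (by norm_num) (by norm_num) hx0).symm⟩
        rw [hy] at hb hub
        have hy1 : κ * Q ≤ y := (Real.rpow_le_rpow_left_iff (by norm_num)).mp hb
        have hy2 : y ≤ Cc * Q := (Real.rpow_le_rpow_left_iff (by norm_num)).mp hub
        obtain ⟨m, hm⟩ : ∃ m : ℕ, m = ⌊(y - κ * Q) / s⌋₊ := ⟨_, rfl⟩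
        have hm1 : (m : ℝ) ≤ (y - κ * Q) / s := by
          rw [hm]
          exact Nat.floor_le (div_nonneg (by linarith) hs0.le)
        have hm2 : (y - κ * Q) / s < m + 1 := by rw [hm]; exact Nat.lt_floor_add_one _
        rw [le_div_iff₀ hs0] at hm1
        rw [div_lt_iff₀ hs0] at hm2
        have hmM : m ∈ range (M₀ + 1) := by
          rw [Finset.mem_range]
          have h1 : (m : ℝ) * s ≤ Cc * Q := by linarith [mul_pos hκ hQ0]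
          have h2 : (m : ℝ) * (κ * Q / 2) ≤ Cc * Q :=
            (mul_le_mul_of_nonneg_left hs3 (Nat.cast_nonneg m)).trans h1
          have h3 : (m : ℝ) ≤ 2 * Cc / κ := by
            rw [le_div_iff₀ hκ]
            have h4 : (m : ℝ) * κ * Q ≤ 2 * Cc * Q := by linarith
            exact le_of_mul_le_mul_right h4 hQ0
          have h5 : (m : ℝ) ≤ M₀ := h3.trans hM₀
          have : m ≤ M₀ := by exact_mod_cast h5
          omega
        have h6 := Finset.single_le_sum hnn hmM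
        have hpw : x / 2 ^ (m * s) = (2 : ℝ) ^ (y - m * s) := by
          rw [hy, Real.rpow_sub (by norm_num)]
          congr 1
          rw [← Real.rpow_natCast]
          push_cast
          rfl
        rw [if_pos] at h6
        · exact h6
        · refine ⟨?_, ?_, ?_⟩
          · push_cast
            linarith [mul_pos hκ hQ0]
          · rw [hpw]
            exact Real.rpow_le_rpow_of_exponent_le (by norm_num) (by linarith)
          · rw [hpw, ← Real.rpow_natCast]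
            refine Real.rpow_le_rpow_of_exponent_le (by norm_num) ?_
            have : y - m * s < κ * Q + s := by linarith
            linarith
    · rw [if_neg hb]
      exact Finset.sum_nonneg hnn
  refine hcov.trans ?_
  have h7 : ∀ m ∈ range (M₀ + 1), (if ((m * s : ℕ) : ℝ) ≤ Cc * Q then
        Pb (glue p p G G) (fun w => (2 : ℝ) ^ (κ * Q) ≤ ‖A (D (L w.2), L w.1)‖ / 2 ^ (m * s) ∧
        ‖A (D (L w.2), L w.1)‖ / 2 ^ (m * s) ≤ 2 ^ J₁) else 0) ≤ ε / (M₀ + 1) := by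
    intro m _
    split_ifs with h
    · exact hcell m h
    · positivity
  refine (Finset.sum_le_sum h7).trans (le_of_eq ?_)
  rw [Finset.sum_const, Finset.card_range, nsmul_eq_mul]
  push_cast
  field_simp

end Pool.PR13
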