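import Pool.Agent.H13.PR1.Bad1

/-!
# One hop

`L0 – T1 → L1` and a fresh time `τ` of `L1`. The data `D` of the lines are independent of the record
given its natural digits (`hI₁`), so the time of the hop is full given `(τ, D (L1), L0)`. The height
`u` of `L1` at the time `τ` does not depend on the time of the hop, the height `n` depends on it by a
polynomial `pv A (T1 / 2 M)` whose coefficients are functions of `(D (L1), L0)`. If `n` is nonfull
given `u` for all laws of density at most `R`, then the coefficients are rarely large.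
-/

set_option autoImplicit false

namespace Pool.PR13

open Finset Real
open Pool.Agent.H49.Ent Pool.Agent.H32.Dense Pool.STK Pool.OWN68 Pool.PR46

/-- **The time of the hop is full**, with a fresh time of the second line in the condition. -/
theorem full_tau {Ω Λ Γ₁ 𝒞 𝒟 𝒩 : Type} [Fintype Ω] {p : Ω → ℝ} (hp : IsLaw p) (L : Ω → Λ)
    (t : Ω → ℤ) (G₁ : Ω → Γ₁) (C : Λ → 𝒞) (D : Λ → 𝒟) (N₁ : Λ → 𝒩) {l e : ℝ}
    (hG₁ : ∀ ω ω', 0 < p ω → 0 < p ω' → G₁ ω = G₁ ω' → C (L ω) = C (L ω') ∧ N₁ (L ω) = N₁ (L ω'))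
    (hbox : ∀ {A T : Type} [Fintype A] {q : A → ℝ} (_ : IsLaw q) (pr : A → Ω) (Z : A → T),
      (∀ a, 0 < q a → 0 < p (pr a)) → CH q (fun a => t (pr a)) Z ≤ l)
    (hfull : l - e ≤ CH p t L)
    (hI₁ : CH p (fun ω => D (L ω)) (fun ω => (N₁ (L ω), C (L ω))) - e ≤
      CH p (fun ω => D (L ω)) G₁) :
    l - 3 * e ≤ CH (P2 p L G₁) (fun w => t w.1.1) (fun w => (t w.2, (D (L w.1.2), L w.1.1))) := by
  have hL1 := P1_law hp G₁
  have hL2 := P2_law hp L G₁
  have f := swap_full hL2.nonneg (fun w : (Ω × Ω) × Ω => t w.1.1) (fun w : (Ω × Ω) × Ω => t w.2)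
    (fun w : (Ω × Ω) × Ω => (D (L w.1.2), L w.1.1)) (l := l) (h := l) (e₁ := e + e) (e₂ := e) (by
      have h1 : CH (P2 p L G₁) (fun w => t w.1.1) (fun w => (D (L w.1.2), L w.1.1)) =
          CH (P1 p G₁) (fun w => t w.1) (fun w => (D (L w.2), L w.1)) :=
        (P2_f hp L G₁).CH (fun w => t w.1) (fun w => (D (L w.2), L w.1))
      rw [h1]
      exact full_one hp L t G₁ C D N₁ hG₁ hfull hI₁) (by
      have h1 : CH (P2 p L G₁) (fun w => t w.2) (fun w => (L w.2, w.1)) = CH p t L :=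
        CH_glue_snd hL1.nonneg hp.nonneg (P2_z hp L G₁) t (Y := L) (fun w => w)
          (fun _ _ _ _ h => h)
      refine hfull.trans ?_
      rw [← h1]
      refine CH_mono_cond hL2.nonneg fun w w' _ _ hz => ?_
      try dsimp only at hz ⊢
      have z1 : w.1 = w'.1 := (Prod.ext_iff.mp hz).2
      rw [z1]) (by
      exact hbox hL2 (fun w => w.2) _ fun w hw => (P2_pos hp L G₁ hw).2.1)
  refine le_trans (le_of_eq (by ring)) f

/-- The data of one hop. -/
abbrev Zo (Λ 𝒟 : Type) : Type := ℤ × (𝒟 × Λ)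

/-- The constant. -/
noncomputable def co1 (K k : ℕ) : ℝ := (4 * K + 1) * (4 * K + 4 * k + 3) * (8 * K + 1)

theorem co1_pos (K k : ℕ) : 0 < co1 K k := by
  unfold co1
  positivity

/-- The bound of `pv`. -/
theorem pv_le {k : ℕ} {A : Fin k → ℝ} {F x : ℝ} (hF : ∀ i, |A i| ≤ F) (hx : |x| ≤ 1) :
    |pv A x| ≤ k * F := by
  unfold pv
  refine (Finset.abs_sum_le_sum_abs _ _).trans ?_
  have h1 : ∀ i ∈ (univ : Finset (Fin k)), |A i * x ^ (i.val + 1)| ≤ F := by
    intro i _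
    rw [abs_mul, abs_pow]
    have g0 : 0 ≤ F := (abs_nonneg _).trans (hF i)
    have := mul_le_mul (hF i) (pow_le_one₀ (abs_nonneg _) hx : |x| ^ (i.val + 1) ≤ 1)
      (by positivity) g0
    linarith
  refine (Finset.sum_le_sum h1).trans (le_of_eq ?_)
  rw [Finset.sum_const, Finset.card_univ, Fintype.card_fin, nsmul_eq_mul]

open Classical in
/-- **The entropy core.** -/
theorem one_core {Ω ζ : Type} [Fintype Ω] {q : Ω → ℝ} (hq : IsLaw q) {M K m S k : ℕ} (hM : 1 ≤ M)
    (hS : 1 ≤ S) (hSM : S ≤ M) (hm1 : 1 ≤ m) (T un nn : Ω → ℤ) (Z : Ω → ζ)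
    (A : ζ → Fin k → ℝ) (a b : ζ → ℝ) {V lam B : ℝ} (hB : 1 ≤ B) (hmMr : (m : ℝ) ≤ M * B)
    (hV : 1 ≤ V) (hlam : 0 < lam) (hlam1 : lam ≤ 1)
    (hh : (k : ℝ) ^ 3 * (S / (2 * M)) ≤ lam / 2)
    (hT : ∀ ω, 0 < q ω → |T ω| ≤ (M : ℤ))
    (hu : ∀ ω, 0 < q ω → |(un ω : ℝ) - a (Z ω)| ≤ K)
    (hn : ∀ ω, 0 < q ω → |(nn ω : ℝ) - (b (Z ω) - pv (A (Z ω)) ((T ω : ℝ) / (2 * M)))| ≤ K)
    (hV1 : ∀ ω, 0 < q ω → V ≤ ‖A (Z ω)‖) (hV2 : ∀ ω, 0 < q ω → ‖A (Z ω)‖ ≤ m)
    (hd : ∀ ω, 0 < q ω →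
      lam * ‖A (Z ω)‖ ≤ |dpv (A (Z ω)) (((T ω / S : ℤ) : ℝ) * S / (2 * M))|) :
    CH q T Z - Real.log (4 * M / S + 3) - Real.log M - Real.log B + Real.log V + Real.log lam -
      Real.log (co1 K k) ≤ CH q nn (fun ω => (nn ω / m, (un ω, Z ω))) := by
  have h0 := hq.nonneg
  have hMr : (1 : ℝ) ≤ M := by exact_mod_cast hM
  have hM0 : (0 : ℝ) < M := by linarith
  have hSr : (1 : ℝ) ≤ S := by exact_mod_cast hS
  have hmr : (1 : ℝ) ≤ m := by exact_mod_cast hm1
  have hK0 : (0 : ℝ) ≤ K := Nat.cast_nonneg K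
  have hB0 : 0 < B := by linarith
  have hAi : ∀ z i, |A z i| ≤ ‖A z‖ := fun z i => by
    have := norm_le_pi_norm (A z) i
    rwa [Real.norm_eq_abs] at this
  -- the short window
  have c1 : CH q (fun ω => T ω / (S : ℤ)) Z ≤ Real.log (4 * M / S + 3) := by
    refine (CH_le_int h0 hq.sum_one _ _ (fun _ => 2 * M / S + 1) ?_).trans (le_of_eq ?_)
    · intro ω ω' hω hω' _
      refine (ediv_diff hS (T ω) (T ω')).trans ?_
      have a1 : |(T ω : ℝ)| ≤ M := by exact_mod_cast hT ω hω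
      have a2 : |(T ω' : ℝ)| ≤ M := by exact_mod_cast hT ω' hω'
      have a3 : |(T ω : ℝ) - T ω'| ≤ 2 * M := (abs_sub _ _).trans (by linarith)
      have a4 := div_le_div_of_nonneg_right a3 (by linarith : (0 : ℝ) ≤ S)
      linarith
    · rw [Ex_const hq.sum_one]
      congr 1
      ring
  -- the first height
  have c2 : CH q un Z ≤ Real.log (4 * K + 1) := by
    refine (CH_le_int h0 hq.sum_one _ _ (fun _ => 2 * K) ?_).trans (le_of_eq ?_)
    · intro ω ω' hω hω' hz
      have g1 := hu ω hω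
      have g2 := hu ω' hω'
      rw [← hz] at g2
      have e : (((un ω - un ω' : ℤ)) : ℝ) = ((un ω : ℝ) - a (Z ω)) - ((un ω' : ℝ) - a (Z ω)) := by
        push_cast
        ring
      rw [e]
      refine (abs_sub _ _).trans ?_
      linarith
    · rw [Ex_const hq.sum_one]
      congr 1
      ring
  -- the coarse part
  have c3 : CH q (fun ω => nn ω / (m : ℤ)) (fun ω => (un ω, Z ω)) ≤
      Real.log (4 * K + 4 * k + 3) := by
    refine (CH_le_int h0 hq.sum_one _ _ (fun _ => 2 * K + 2 * k + 1) ?_).trans ?_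
    · intro ω ω' hω hω' hzz
      have hz : Z ω = Z ω' := (Prod.ext_iff.mp hzz).2
      have g3 := hn ω hω
      have g4 := hn ω' hω'
      rw [← hz] at g4
      obtain ⟨-, -, w3, -⟩ := win_start hM hS hSM (hT ω hω)
      obtain ⟨-, -, w4, -⟩ := win_start hM hS hSM (hT ω' hω')
      have p3 := pv_le (hAi (Z ω)) w3
      have p4 := pv_le (hAi (Z ω)) w4
      have v2 := hV2 ω hω
      have v3 := mul_le_mul_of_nonneg_left v2 (Nat.cast_nonneg k : (0 : ℝ) ≤ k)
      refine (ediv_diff hm1 (nn ω) (nn ω')).trans ?_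
      have r2 : |((nn ω : ℝ) - nn ω')| ≤ (2 * K + 2 * k) * m := by
        have e : ((nn ω : ℝ) - nn ω') =
          ((nn ω : ℝ) - (b (Z ω) - pv (A (Z ω)) ((T ω : ℝ) / (2 * M)))) -
          ((nn ω' : ℝ) - (b (Z ω) - pv (A (Z ω)) ((T ω' : ℝ) / (2 * M)))) -
          (pv (A (Z ω)) ((T ω : ℝ) / (2 * M)) - pv (A (Z ω)) ((T ω' : ℝ) / (2 * M))) := by ring
        rw [e]
        refine (abs_sub _ _).trans ?_
        have c4 := abs_sub ((nn ω : ℝ) - (b (Z ω) - pv (A (Z ω)) ((T ω : ℝ) / (2 * M))))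
          ((nn ω' : ℝ) - (b (Z ω) - pv (A (Z ω)) ((T ω' : ℝ) / (2 * M))))
        have c5 := abs_sub (pv (A (Z ω)) ((T ω : ℝ) / (2 * M)))
          (pv (A (Z ω)) ((T ω' : ℝ) / (2 * M)))
        have c6 : 2 * (K : ℝ) ≤ 2 * K * m := by nlinarith
        linarith
      have r3 : |((nn ω : ℝ) - nn ω')| / m ≤ 2 * K + 2 * k := by
        rw [div_le_iff₀ (by linarith)]
        exact r2
      linarith
    · rw [Ex_const hq.sum_one]
      refine Real.log_le_log (by positivity) ?_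
      linarith
  -- the time is read off
  have c4 : CH q T (fun ω => (nn ω, (T ω / (S : ℤ), Z ω))) ≤
      Real.log (8 * K + 1) + Real.log M + Real.log B - Real.log V - Real.log lam := by
    have hlogc : Real.log ((8 * K + 1) * M * B / (lam * V)) =
        Real.log (8 * K + 1) + Real.log M + Real.log B - Real.log V - Real.log lam := by
      have hV0 : 0 < V := by linarith
      rw [Real.log_div (by positivity) (by positivity), Real.log_mul (by positivity) hB0.ne',
        Real.log_mul (by positivity) hM0.ne', Real.log_mul hlam.ne' hV0.ne']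
      ring
    rw [← hlogc]
    refine (CH_le_card h0 hq.sum_one _ _ (fun z => (Finset.univ.filter fun ω =>
      0 < q ω ∧ (nn ω, (T ω / (S : ℤ), Z ω)) = z).image fun ω => T ω) (fun ω hω =>
        Finset.mem_image_of_mem _ (Finset.mem_filter.mpr ⟨Finset.mem_univ _, hω, rfl⟩))).trans ?_
    refine (Ex_mono h0 (g := fun _ => Real.log ((8 * K + 1) * M * B / (lam * V))) fun ω hω =>
      Real.log_le_log ?_ ?_).trans (le_of_eq (Ex_const hq.sum_one _))
    · have : 0 < ((Finset.univ.filter fun ω' => 0 < q ω' ∧ (nn ω', (T ω' / (S : ℤ), Z ω')) =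
          (nn ω, (T ω / (S : ℤ), Z ω))).image fun ω => T ω).card :=
        Finset.card_pos.mpr ⟨_, Finset.mem_image_of_mem _ (Finset.mem_filter.mpr
          ⟨Finset.mem_univ ω, hω, rfl⟩)⟩
      exact_mod_cast this
    · have hF0 : 0 < ‖A (Z ω)‖ := by linarith [hV1 ω hω]
      refine (cnt_one hM hS hSM (A := A (Z ω)) (F := ‖A (Z ω)‖) (K := K) (β := b (Z ω) - nn ω)
        hF0 hlam (hAi (Z ω)) hK0 hh (T ω / (S : ℤ)) (hd ω hω) _ ?_).trans ?_
      · intro t ht
        obtain ⟨ω', hω', rfl⟩ := Finset.mem_image.mp ht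
        obtain ⟨-, hω'2, hω'3⟩ := Finset.mem_filter.mp hω'
        have e1 : nn ω' = nn ω := (Prod.ext_iff.mp hω'3).1
        have e2 : T ω' / (S : ℤ) = T ω / (S : ℤ) := (Prod.ext_iff.mp (Prod.ext_iff.mp hω'3).2).1
        have e3 : Z ω' = Z ω := (Prod.ext_iff.mp (Prod.ext_iff.mp hω'3).2).2
        refine ⟨hT ω' hω'2, e2, ?_⟩
        have g := hn ω' hω'2
        rw [e3, e1] at g
        have e4 : pv (A (Z ω)) ((T ω' : ℝ) / (2 * M)) - (b (Z ω) - nn ω) =
          (nn ω : ℝ) - (b (Z ω) - pv (A (Z ω)) ((T ω' : ℝ) / (2 * M))) := by ring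
        rw [e4]
        exact g
      · have v1 := hV1 ω hω
        have v2 := hV2 ω hω
        have hV0 : 0 < V := by linarith
        have l1 : 8 * (K : ℝ) * M / (lam * ‖A (Z ω)‖) ≤ 8 * K * M / (lam * V) :=
          div_le_div_of_nonneg_left (by positivity) (by positivity)
            (mul_le_mul_of_nonneg_left v1 hlam.le)
        have l2 : (1 : ℝ) ≤ M * B / (lam * V) := by
          rw [le_div_iff₀ (by positivity), one_mul]
          calc lam * V ≤ 1 * V := mul_le_mul_of_nonneg_right hlam1 hV0.le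
            _ ≤ M * B := by linarith
        have l3 : (8 * (K : ℝ) + 1) * M * B / (lam * V) =
            8 * K * M / (lam * V) * B + M * B / (lam * V) := by
          ring
        have l4 : 8 * (K : ℝ) * M / (lam * V) ≤ 8 * K * M / (lam * V) * B :=
          le_mul_of_one_le_right (by positivity) hB
        rw [l3]
        linarith
  -- together
  have d1 := CH_le_add h0 T (fun ω => T ω / (S : ℤ)) Z
  have d2 := CH_le_add h0 T nn (fun ω => (T ω / (S : ℤ), Z ω))
  have d3 : CH q nn (fun ω => (T ω / (S : ℤ), Z ω)) ≤ CH q nn Z :=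
    CH_mono_cond h0 fun ω ω' _ _ h => (Prod.ext_iff.mp h).2
  have d4 := CH_le_add h0 nn un Z
  have d5 := CH_le_add h0 nn (fun ω => nn ω / (m : ℤ)) (fun ω => (un ω, Z ω))
  have hlogco : Real.log (co1 K k) = Real.log (4 * K + 1) + Real.log (4 * K + 4 * k + 3) +
      Real.log (8 * K + 1) := by
    unfold co1
    rw [Real.log_mul (by positivity) (by positivity), Real.log_mul (by positivity) (by positivity)]
  rw [hlogco]
  linarith

end Pool.PR13
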