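import Pool.Agent.H13.PR1.Ev

/-!
# Kind `sta`: one hop and its reversal

The height `u` is static along the hop (its displacement `x' - x` is constant in time), the height `n`
moves by the slope of the line at the time of the record times the displacement of `u`, plus the
velocity. The slope of a line is a polynomial in the time, and it is not known. `sta_hop`: if `n` is
nonfull given `u` and `x` is alive given the record, then the linear coefficient `cc 0` of the slope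
and the number `d - cc 0 (x - xg)` are few given the record (and near functions of the record), and the
coefficients of higher order vanish, up to `2 ^ (ε Q)`.
-/

set_option autoImplicit false

namespace Pool.PR13

open Finset Real
open Pool.Agent.H49.Ent Pool.Agent.H32.Dense Pool.STK Pool.OWN68 Pool.PR46
open Pool.BFL (Pb)

/-- The hypotheses for one law. -/
structure StaH {Ω Λ Γ 𝒞 𝒟 𝒩 : Type} [Fintype Ω] (p : Ω → ℝ) (k K Q : ℕ)
    (δ c₀ h α κ₁ Cc C₂ B : ℝ) (L : Ω → Λ) (t : Ω → ℤ) (G : Ω → Γ) (C : Λ → 𝒞) (D : Λ → 𝒟)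
    (N : Λ → 𝒩) (u n : Λ → ℤ → ℤ) (x d : 𝒟 → ℝ) (c0 : Λ → ℝ) (cc : Λ → Fin (k + 1) → ℝ)
    (xg : Γ → ℝ) : Prop where
  tb : ∀ ω, 0 < p ω → |t ω| ≤ ((2 ^ Q : ℕ) : ℤ)
  g : ∀ ω ω', 0 < p ω → 0 < p ω' → G ω = G ω' → C (L ω) = C (L ω') ∧ N (L ω) = N (L ω')
  full : Real.log (2 * ((2 ^ Q : ℕ) : ℝ) + 1) - δ * Q ≤ CH p t L
  i1 : CH p (fun ω => D (L ω)) (fun ω => (N (L ω), C (L ω))) - δ * Q ≤
    CH p (fun ω => D (L ω)) G
  /-- the displacement of the hop -/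
  dis : ∀ ω₀ ω₁, 0 < p ω₀ → 0 < p ω₁ → G ω₀ = G ω₁ → ∀ τ : ℤ, |τ| ≤ ((2 ^ Q : ℕ) : ℤ) →
    |((u (L ω₁) τ : ℝ) - u (L ω₀) τ) - (x (D (L ω₁)) - x (D (L ω₀)))| ≤ K ∧
    |((n (L ω₁) τ : ℝ) - n (L ω₀) τ) -
      ((c0 (L ω₀) + pv (cc (L ω₀)) ((t ω₀ : ℝ) / (2 * ((2 ^ Q : ℕ) : ℝ)))) *
        (x (D (L ω₁)) - x (D (L ω₀))) +
      (d (D (L ω₁)) - d (D (L ω₀))) * (((τ : ℝ) - t ω₀) / (2 * ((2 ^ Q : ℕ) : ℝ))))| ≤ K
  al : ∀ E : Ω → Prop, c₀ ≤ Pb p E →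
    α * Q ≤ CH (cond p E True) (fun ω => ⌊x (D (L ω)) / B⌋) G
  nf : ∀ i j : ℕ, (i : ℝ) ≤ Cc * Q → (j : ℝ) ≤ κ₁ * Q → ∀ E : Ω → Prop, c₀ ≤ Pb p E →
    CH (cond p E True) (fun ω => n (L ω) (t ω) / 2 ^ i) (fun ω => ((n (L ω) (t ω) / 2 ^ (i + j),
      u (L ω) (t ω)), (t ω, (C (L ω), D (L ω))))) ≤ (1 - h) * j * Real.log 2 + δ * Q
  xgb : ∀ ω, 0 < p ω → |x (D (L ω)) - xg (G ω)| ≤ (2 : ℝ) ^ (δ * Q) * B
  ab : ∀ ω₀ ω₁, 0 < p ω₀ → 0 < p ω₁ → G ω₀ = G ω₁ →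
    |(d (D (L ω₁)) - d (D (L ω₀))) - cc (L ω₀) 0 * (x (D (L ω₁)) - x (D (L ω₀)))| ≤
      (2 : ℝ) ^ (Cc * Q) ∧
    ∀ i : Fin k, |cc (L ω₀) i.succ * (x (D (L ω₁)) - x (D (L ω₀)))| ≤ (2 : ℝ) ^ (Cc * Q)
  cb : ∀ ω, 0 < p ω → ∀ i, |cc (L ω) i| * B ≤ (2 : ℝ) ^ (C₂ * Q)
  db : ∀ ω₀ ω₁, 0 < p ω₀ → 0 < p ω₁ → G ω₀ = G ω₁ →
    |d (D (L ω₁)) - d (D (L ω₀))| ≤ (2 : ℝ) ^ (C₂ * Q)

/-- The coefficients of the displacement. -/
noncomputable def As {Λ 𝒟 : Type} {k : ℕ} (D : Λ → 𝒟) (x d : 𝒟 → ℝ) (cc : Λ → Fin (k + 1) → ℝ)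
    (z : 𝒟 × Λ) (i : Fin (k + 1)) : ℝ :=
  (if i = 0 then d z.1 - d (D z.2) else 0) - cc z.2 i * (x z.1 - x (D z.2))

theorem pv_As {Λ 𝒟 : Type} {k : ℕ} (D : Λ → 𝒟) (x d : 𝒟 → ℝ) (cc : Λ → Fin (k + 1) → ℝ)
    (z : 𝒟 × Λ) (s : ℝ) :
    pv (As D x d cc z) s = (d z.1 - d (D z.2)) * s - pv (cc z.2) s * (x z.1 - x (D z.2)) := by
  unfold pv As
  rw [Finset.sum_mul]
  have h : ∀ i : Fin (k + 1), ((if i = 0 then d z.1 - d (D z.2) else 0) -
      cc z.2 i * (x z.1 - x (D z.2))) * s ^ (i.val + 1) =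
      (if i = 0 then (d z.1 - d (D z.2)) * s else 0) -
        cc z.2 i * s ^ (i.val + 1) * (x z.1 - x (D z.2)) := by
    intro i
    by_cases hi : i = 0
    · rw [if_pos hi, if_pos hi, hi]
      simp
      ring
    · rw [if_neg hi, if_neg hi]
      ring
  rw [Finset.sum_congr rfl fun i _ => h i, Finset.sum_sub_distrib]
  simp

/-- **Kind `sta`: one hop and its reversal.** -/
theorem sta_hop (k K : ℕ) {h α ε Cc C₂ : ℝ} (hh : 0 < h) (hh1 : h ≤ 1) (hα : 0 < α) (hε : 0 < ε)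
    (hC₂ : 0 ≤ C₂) :
    ∃ κ₁ > 0, ∃ δ₀ > 0, ∃ c₀ > 0, ∃ Q₀ : ℕ, ∀ Q ≥ Q₀, ∀ δ ≤ δ₀, 0 ≤ δ → ∀ B : ℝ, 0 < B →
      ∀ {Ω Λ Γ 𝒞 𝒟 𝒩 : Type} [Fintype Ω] {p : Ω → ℝ}, IsLaw p → ∀ {L : Ω → Λ} {t : Ω → ℤ}
      {G : Ω → Γ} {C : Λ → 𝒞} {D : Λ → 𝒟} {N : Λ → 𝒩} {u n : Λ → ℤ → ℤ} {x d : 𝒟 → ℝ}
      {c0 : Λ → ℝ} {cc : Λ → Fin (k + 1) → ℝ} {xg : Γ → ℝ},
      StaH p k K Q δ c₀ h α κ₁ Cc C₂ B L t G C D N u n x d c0 cc xg →
      CH p (fun ω => ⌊cc (L ω) 0 / ((2 : ℝ) ^ (ε * Q) / B)⌋) G ≤ ε * Q ∧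
      CH p (fun ω => ⌊(d (D (L ω)) - cc (L ω) 0 * (x (D (L ω)) - xg (G ω))) /
        (2 : ℝ) ^ (ε * Q)⌋) G ≤ ε * Q ∧
      Pb p (fun ω => ∃ i : Fin k, (2 : ℝ) ^ (ε * Q) / B < |cc (L ω) i.succ|) ≤ ε ∧
      ∃ cg vg : Γ → ℝ, (∀ ω, 0 < p ω → |cg (G ω)| * B ≤ (2 : ℝ) ^ (C₂ * Q)) ∧
        Pb p (fun ω => (2 : ℝ) ^ (ε * Q) / B < |cc (L ω) 0 - cg (G ω)| ∨
          (2 : ℝ) ^ (ε * Q) < |d (D (L ω)) - (cg (G ω) * (x (D (L ω)) - xg (G ω)) +
            vg (G ω))|) ≤ ε := by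
  classical
  have hl2 : 0 < Real.log 2 := Real.log_pos (by norm_num)
  have hl21 : Real.log 2 ≤ 1 := by
    have := Real.log_two_lt_d9
    linarith
  obtain ⟨κ, hκd⟩ : ∃ κ : ℝ, κ = min ε 1 / 4 := ⟨_, rfl⟩
  have hκ : 0 < κ := by rw [hκd]; have := lt_min hε one_pos; positivity
  have hκ1 : κ ≤ 1 / 2 := by rw [hκd]; have := min_le_right ε 1; linarith
  have hκε : κ ≤ ε / 4 := by rw [hκd]; have := min_le_left ε 1; linarith
  obtain ⟨η, hηd⟩ : ∃ η : ℝ, η = min (ε / 3) (ε / (12 * (C₂ + 4))) := ⟨_, rfl⟩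
  have hη : 0 < η := by rw [hηd]; exact lt_min (by positivity) (by positivity)
  have hη1 : 3 * η ≤ ε := by
    have : η ≤ ε / 3 := by rw [hηd]; exact min_le_left _ _
    linarith
  have hη2 : 12 * (C₂ + 4) * η ≤ ε := by
    have : η ≤ ε / (12 * (C₂ + 4)) := by rw [hηd]; exact min_le_right _ _
    rw [le_div_iff₀ (by positivity)] at this
    linarith
  obtain ⟨δ₁, hδ₁, c₁, hc₁, Q₁, hone⟩ := one_all (k + 1) K (by omega) (h := h) (κ := κ) (ε := η)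
    (Cc := Cc) hh hh1 hκ hκ1 hη
  obtain ⟨Q₂, hQ₂⟩ := exists_nat_ge (max (4 / ε) (max ((|Real.log (6 / η)| + 1) / α)
    (max (2 * Real.log 10 / ε) (max (1 / κ) 1))))
  refine ⟨2 * κ, by positivity, min δ₁ κ, lt_min hδ₁ hκ, min c₁ (η / 2),
    lt_min hc₁ (by positivity), max Q₁ Q₂, ?_⟩
  intro Q hQ δ hδ hδ0 B hB Ω Λ Γ 𝒞 𝒟 𝒩 _ p hp L t G C D N u n x d c0 cc xg H
  have hQ1 : Q₁ ≤ Q := (le_max_left _ _).trans hQ
  have hQr : (Q₂ : ℝ) ≤ Q := by exact_mod_cast (le_max_right _ _).trans hQ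
  have q1 : 4 / ε ≤ Q := ((le_max_left _ _).trans hQ₂).trans hQr
  have q2 : (|Real.log (6 / η)| + 1) / α ≤ Q :=
    (((le_max_left _ _).trans (le_max_right _ _)).trans hQ₂).trans hQr
  have q3 : 2 * Real.log 10 / ε ≤ Q :=
    ((((le_max_left _ _).trans (le_max_right _ _)).trans (le_max_right _ _)).trans hQ₂).trans hQr
  have q4 : 1 / κ ≤ Q :=
    (((((le_max_left _ _).trans (le_max_right _ _)).trans (le_max_right _ _)).trans
      (le_max_right _ _)).trans hQ₂).trans hQr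
  have q5 : 1 ≤ (Q : ℝ) :=
    (((((le_max_right _ _).trans (le_max_right _ _)).trans (le_max_right _ _)).trans
      (le_max_right _ _)).trans hQ₂).trans hQr
  rw [div_le_iff₀ (by positivity)] at q1 q2 q3 q4
  have hQ0 : (0 : ℝ) < Q := by linarith
  have hδκ : δ ≤ κ := hδ.trans (min_le_right _ _)
  have hδ1 : δ ≤ δ₁ := hδ.trans (min_le_left _ _)
  have h0 := hp.nonneg
  have hPn : ∀ w, 0 ≤ glue p p G G w := (P1_law hp G).nonneg
  have hAz : ∀ z : 𝒟 × Λ, As D x d cc z 0 = (d z.1 - d (D z.2)) - cc z.2 0 * (x z.1 - x (D z.2)) :=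
    fun z => by unfold As; rw [if_pos rfl]
  have hAs : ∀ (z : 𝒟 × Λ) (i : Fin k), As D x d cc z i.succ = -(cc z.2 i.succ *
      (x z.1 - x (D z.2))) := fun z i => by
    unfold As
    rw [if_neg (Fin.succ_ne_zero i)]
    ring
  -- one hop
  have hb1 : Pb (glue p p G G) (fun w => (2 : ℝ) ^ (κ * Q) ≤
      ‖As D x d cc (D (L w.2), L w.1)‖) ≤ η := by
    refine hone Q hQ1 δ hδ1 (C := C) (D := D) (N := N) (u := u) (n := n)
      (a := fun z => u z.2.2 z.1 + (x z.2.1 - x (D z.2.2)))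
      (b := fun z => n z.2.2 z.1 + (c0 z.2.2 * (x z.2.1 - x (D z.2.2)) +
        (d z.2.1 - d (D z.2.2)) * ((z.1 : ℝ) / (2 * ((2 ^ Q : ℕ) : ℝ))))) hp (t := t) hδ0 ?_
    refine ⟨H.tb, H.g, H.full, H.i1, ?_, ?_, ?_⟩
    · intro ω₀ ω₁ g0 g1 hG τ hτ
      obtain ⟨d1, d2⟩ := H.dis ω₀ ω₁ g0 g1 hG τ hτ
      constructor
      · have e : (u (L ω₁) τ : ℝ) - (u (L ω₀) τ + (x (D (L ω₁)) - x (D (L ω₀)))) =
            ((u (L ω₁) τ : ℝ) - u (L ω₀) τ) - (x (D (L ω₁)) - x (D (L ω₀))) := by ring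
        show |(u (L ω₁) τ : ℝ) - (u (L ω₀) τ + (x (D (L ω₁)) - x (D (L ω₀))))| ≤ K
        rw [e]
        exact d1
      · rw [pv_As]
        obtain ⟨s, hs⟩ : ∃ s : ℝ, s = (t ω₀ : ℝ) / (2 * ((2 ^ Q : ℕ) : ℝ)) := ⟨_, rfl⟩
        have e : (n (L ω₁) τ : ℝ) - ((n (L ω₀) τ + (c0 (L ω₀) * (x (D (L ω₁)) - x (D (L ω₀))) +
            (d (D (L ω₁)) - d (D (L ω₀))) * ((τ : ℝ) / (2 * ((2 ^ Q : ℕ) : ℝ))))) -
            ((d (D (L ω₁)) - d (D (L ω₀))) * s - pv (cc (L ω₀)) s *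
              (x (D (L ω₁)) - x (D (L ω₀))))) =
            ((n (L ω₁) τ : ℝ) - n (L ω₀) τ) - ((c0 (L ω₀) + pv (cc (L ω₀)) s) *
              (x (D (L ω₁)) - x (D (L ω₀))) + (d (D (L ω₁)) - d (D (L ω₀))) *
                ((τ : ℝ) / (2 * ((2 ^ Q : ℕ) : ℝ)) - s)) := by ring
        have e2 : ((τ : ℝ) - t ω₀) / (2 * ((2 ^ Q : ℕ) : ℝ)) =
            (τ : ℝ) / (2 * ((2 ^ Q : ℕ) : ℝ)) - s := by rw [hs, sub_div]
        rw [← hs, e2] at d2
        show |(n (L ω₁) τ : ℝ) - ((n (L ω₀) τ + (c0 (L ω₀) * (x (D (L ω₁)) - x (D (L ω₀))) +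
            (d (D (L ω₁)) - d (D (L ω₀))) * ((τ : ℝ) / (2 * ((2 ^ Q : ℕ) : ℝ))))) -
            ((d (D (L ω₁)) - d (D (L ω₀))) * ((t ω₀ : ℝ) / (2 * ((2 ^ Q : ℕ) : ℝ))) -
            pv (cc (L ω₀)) ((t ω₀ : ℝ) / (2 * ((2 ^ Q : ℕ) : ℝ))) *
              (x (D (L ω₁)) - x (D (L ω₀)))))| ≤ K
        rw [← hs, e]
        exact d2
    · intro i j hi hj E hE
      exact H.nf i j hi hj E ((min_le_left _ _).trans hE)
    · intro ω₀ ω₁ g0 g1 hG
      obtain ⟨a1, a2⟩ := H.ab ω₀ ω₁ g0 g1 hG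
      rw [pi_norm_le_iff_of_nonneg (by positivity)]
      intro i
      rw [Real.norm_eq_abs]
      refine Fin.cases ?_ (fun j => ?_) i
      · rw [hAz]
        exact a1
      · rw [hAs, abs_neg]
        exact a2 j
  have hb2 : Pb (glue p p G G) (fun w => (2 : ℝ) ^ (κ * Q) ≤
      ‖As D x d cc (D (L w.1), L w.2)‖) ≤ η := by
    rw [Pb_sym]
    exact hb1
  have hb3 : Pb (glue p p G G) (fun w => |x (D (L w.2)) - x (D (L w.1))| < B) ≤ η := by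
    refine alive_Pb hp G (fun ω => x (D (L ω))) hB hη fun E hE => ?_
    refine lt_of_lt_of_le ?_ (H.al E ((min_le_right _ _).trans hE))
    have := le_abs_self (Real.log (6 / η))
    linarith
  -- bad pairs
  obtain ⟨Bad, hBad⟩ : ∃ Bad : Ω → Ω → Prop, Bad = fun ω ω' =>
      ((2 : ℝ) ^ (κ * Q) ≤ ‖As D x d cc (D (L ω'), L ω)‖ ∨
        (2 : ℝ) ^ (κ * Q) ≤ ‖As D x d cc (D (L ω), L ω')‖) ∨
      |x (D (L ω')) - x (D (L ω))| < B := ⟨_, rfl⟩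
  have hbad : Pb (glue p p G G) (fun w => Bad w.1 w.2) ≤ 3 * η := by
    have g1 := Pb_imp2 hPn (E := fun w => Bad w.1 w.2)
      (F := fun w => (2 : ℝ) ^ (κ * Q) ≤ ‖As D x d cc (D (L w.2), L w.1)‖ ∨
        (2 : ℝ) ^ (κ * Q) ≤ ‖As D x d cc (D (L w.1), L w.2)‖)
      (H := fun w => |x (D (L w.2)) - x (D (L w.1))| < B) fun w _ hw => by
        rw [hBad] at hw
        exact hw
    have g2 := Pb_imp2 hPn
      (E := fun w => (2 : ℝ) ^ (κ * Q) ≤ ‖As D x d cc (D (L w.2), L w.1)‖ ∨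
        (2 : ℝ) ^ (κ * Q) ≤ ‖As D x d cc (D (L w.1), L w.2)‖)
      (F := fun w => (2 : ℝ) ^ (κ * Q) ≤ ‖As D x d cc (D (L w.2), L w.1)‖)
      (H := fun w => (2 : ℝ) ^ (κ * Q) ≤ ‖As D x d cc (D (L w.1), L w.2)‖) fun w _ hw => hw
    linarith
  obtain ⟨X, hX⟩ : ∃ X : ℝ, X = (2 : ℝ) ^ (κ * Q) := ⟨_, rfl⟩
  have hX0 : 0 < X := by rw [hX]; positivity
  have hX1 : 1 ≤ X := by rw [hX]; exact Real.one_le_rpow (by norm_num) (by positivity)
  rw [← hX] at hBad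
  have hδX : (2 : ℝ) ^ (δ * Q) ≤ X := by
    rw [hX]
    exact Real.rpow_le_rpow_of_exponent_le (by norm_num)
      (mul_le_mul_of_nonneg_right hδκ hQ0.le)
  obtain ⟨Y, hY⟩ : ∃ Y : ℝ, Y = (2 : ℝ) ^ (ε * Q) := ⟨_, rfl⟩
  rw [← hY]
  have hXY : 3 * (X * X) < Y := by
    have e1 : (2 : ℝ) ^ (2 : ℝ) * (X * X) ≤ Y := by
      rw [hX, hY, ← Real.rpow_add (by norm_num), ← Real.rpow_add (by norm_num)]
      refine Real.rpow_le_rpow_of_exponent_le (by norm_num) ?_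
      nlinarith
    have e2 : (2 : ℝ) ^ (2 : ℝ) = 4 := by
      rw [show (2 : ℝ) = ((2 : ℕ) : ℝ) by norm_num, Real.rpow_natCast]
      norm_num
    rw [e2] at e1
    have : 0 < X * X := by positivity
    linarith
  have hY0 : 0 < Y := by rw [hY]; positivity
  have hXX : X ≤ X * X := by nlinarith
  -- good pairs
  have hgood : ∀ ω ω', ¬ Bad ω ω' →
      |(d (D (L ω')) - d (D (L ω))) - cc (L ω) 0 * (x (D (L ω')) - x (D (L ω)))| ≤ X ∧
      |(d (D (L ω)) - d (D (L ω'))) - cc (L ω') 0 * (x (D (L ω)) - x (D (L ω')))| ≤ X ∧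
      (∀ i : Fin k, |cc (L ω) i.succ| ≤ X / B) ∧
      |cc (L ω') 0 - cc (L ω) 0| ≤ 2 * X / B := by
    intro ω ω' hw
    rw [hBad] at hw
    push Not at hw
    obtain ⟨⟨w1, w2⟩, w3⟩ := hw
    have v1 : ∀ i, |As D x d cc (D (L ω'), L ω) i| ≤ X := fun i =>
      (norm_le_pi_norm (As D x d cc (D (L ω'), L ω)) i).trans w1.le
    have v2 : ∀ i, |As D x d cc (D (L ω), L ω') i| ≤ X := fun i =>
      (norm_le_pi_norm (As D x d cc (D (L ω), L ω')) i).trans w2.le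
    have z1 := v1 0
    have z2 := v2 0
    rw [hAz] at z1 z2
    refine ⟨z1, z2, fun i => ?_, ?_⟩
    · have := v1 i.succ
      rw [hAs, abs_neg, abs_mul] at this
      rw [le_div_iff₀ hB]
      exact (mul_le_mul_of_nonneg_left w3 (abs_nonneg _)).trans this
    · rw [le_div_iff₀ hB]
      have e : (cc (L ω') 0 - cc (L ω) 0) * (x (D (L ω')) - x (D (L ω))) =
          ((d (D (L ω')) - d (D (L ω))) - cc (L ω) 0 * (x (D (L ω')) - x (D (L ω)))) +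
          ((d (D (L ω)) - d (D (L ω'))) - cc (L ω') 0 * (x (D (L ω)) - x (D (L ω')))) := by ring
      have g1 : |cc (L ω') 0 - cc (L ω) 0| * |x (D (L ω')) - x (D (L ω))| ≤ 2 * X := by
        rw [← abs_mul, e]
        refine (abs_add_le _ _).trans ?_
        linarith
      exact (mul_le_mul_of_nonneg_left w3 (abs_nonneg _)).trans g1
  -- the logarithms
  have hlog : ∀ A : ℝ, 0 ≤ A → A ≤ 3 * (2 : ℝ) ^ ((C₂ + 1) * Q) →
      Real.log 10 + 2 * (3 * η) * Real.log (2 * A + 3) ≤ ε * Q := by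
    intro A hA0 hA
    have h2 : (1 : ℝ) ≤ (2 : ℝ) ^ ((C₂ + 1) * Q) :=
      Real.one_le_rpow (by norm_num) (by positivity)
    have h1 : Real.log (2 * A + 3) ≤ (C₂ + 4) * Q := by
      have h3 : 2 * A + 3 ≤ 2 ^ (4 : ℝ) * (2 : ℝ) ^ ((C₂ + 1) * Q) := by
        have : (2 : ℝ) ^ (4 : ℝ) = 16 := by
          rw [show (4 : ℝ) = ((4 : ℕ) : ℝ) by norm_num, Real.rpow_natCast]
          norm_num
        rw [this]
        linarith
      refine (Real.log_le_log (by linarith) h3).trans ?_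
      rw [Real.log_mul (by positivity) (by positivity), Real.log_rpow (by norm_num),
        Real.log_rpow (by norm_num)]
      have h4 : 4 * Real.log 2 ≤ 3 := by
        have := Real.log_two_lt_d9
        linarith
      have h5 : (C₂ + 1) * Q * Real.log 2 ≤ (C₂ + 1) * Q * 1 :=
        mul_le_mul_of_nonneg_left hl21 (by positivity)
      nlinarith
    have h6 : 2 * (3 * η) * Real.log (2 * A + 3) ≤ ε / 2 * Q := by
      have : 2 * (3 * η) * Real.log (2 * A + 3) ≤ 2 * (3 * η) * ((C₂ + 4) * Q) :=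
        mul_le_mul_of_nonneg_left h1 (by positivity)
      refine this.trans ?_
      have e : 2 * (3 * η) * ((C₂ + 4) * Q) = 12 * (C₂ + 4) * η * Q / 2 := by ring
      rw [e]
      have := mul_le_mul_of_nonneg_right hη2 hQ0.le
      linarith
    linarith
  have hCQ : (0 : ℝ) < (2 : ℝ) ^ (C₂ * Q) := by positivity
  have hCQ1 : (2 : ℝ) ^ (C₂ * Q) ≤ (2 : ℝ) ^ ((C₂ + 1) * Q) :=
    Real.rpow_le_rpow_of_exponent_le (by norm_num) (by nlinarith)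
  have hYB : 0 < Y / B := by positivity
  refine ⟨?_, ?_, ?_, ?_⟩
  · refine (few_ent hp G (fun ω => cc (L ω) 0) (w₀ := 2 * X / B) (A := 2 * (2 : ℝ) ^ (C₂ * Q))
      hYB ?_ (by positivity) ((Pb_imp hPn fun w _ hw => ?_).trans hbad) ?_).trans
      (hlog _ (by positivity) (by linarith))
    · refine div_lt_div_of_pos_right ?_ hB
      linarith
    · by_contra hcon
      exact absurd (hgood w.1 w.2 hcon).2.2.2 (not_le.mpr hw)
    · intro ω ω' hω hω' hG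
      have a1 := H.cb ω hω 0
      have a2 := H.cb ω' hω' 0
      rw [mul_div_assoc', le_div_iff₀ hB]
      have a3 := abs_sub (cc (L ω) 0) (cc (L ω') 0)
      have a4 : |cc (L ω) 0 - cc (L ω') 0| * B ≤ 2 * (2 : ℝ) ^ (C₂ * Q) := by
        refine (mul_le_mul_of_nonneg_right a3 hB.le).trans ?_
        rw [add_mul]
        linarith
      refine a4.trans ?_
      have : 1 ≤ Y := by nlinarith
      nlinarith
  · refine (few_ent hp G (fun ω => d (D (L ω)) - cc (L ω) 0 * (x (D (L ω)) - xg (G ω)))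
      (w₀ := 3 * (X * X)) (A := 3 * (2 : ℝ) ^ ((C₂ + 1) * Q))
      hY0 hXY (by positivity) ((Pb_imp hPn fun w hw0 hw => ?_).trans hbad) ?_).trans
      (hlog _ (by positivity) le_rfl)
    · by_contra hcon
      obtain ⟨p1, p2, p3⟩ := P1_pos hp G hw0
      obtain ⟨b1, b2, b3, b4⟩ := hgood w.1 w.2 hcon
      have e : d (D (L w.2)) - cc (L w.2) 0 * (x (D (L w.2)) - xg (G w.2)) -
          (d (D (L w.1)) - cc (L w.1) 0 * (x (D (L w.1)) - xg (G w.1))) =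
          ((d (D (L w.2)) - d (D (L w.1))) - cc (L w.1) 0 *
            (x (D (L w.2)) - x (D (L w.1)))) -
          (cc (L w.2) 0 - cc (L w.1) 0) * (x (D (L w.2)) - xg (G w.2)) := by
        rw [p3]
        ring
      rw [e] at hw
      refine absurd hw (not_lt.mpr ?_)
      refine (abs_sub _ _).trans ?_
      rw [abs_mul]
      have g1 := H.xgb w.2 p2
      have g2 : |x (D (L w.2)) - xg (G w.2)| ≤ X * B :=
        g1.trans (mul_le_mul_of_nonneg_right hδX hB.le)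
      have g3 := mul_le_mul b4 g2 (abs_nonneg _) (by positivity)
      have g4 : 2 * X / B * (X * B) = 2 * (X * X) := by field_simp
      rw [g4] at g3
      linarith
    · intro ω ω' hω hω' hG
      have a1 := H.cb ω hω 0
      have a2 := H.cb ω' hω' 0
      have b1 := H.xgb ω hω
      have b2 := H.xgb ω' hω'
      have c1 := H.db ω' ω hω' hω hG.symm
      have e : d (D (L ω)) - cc (L ω) 0 * (x (D (L ω)) - xg (G ω)) -
          (d (D (L ω')) - cc (L ω') 0 * (x (D (L ω')) - xg (G ω'))) =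
          (d (D (L ω)) - d (D (L ω'))) - (cc (L ω) 0 * (x (D (L ω)) - xg (G ω)) -
            cc (L ω') 0 * (x (D (L ω')) - xg (G ω'))) := by ring
      have hd2 : (2 : ℝ) ^ (C₂ * Q) * (2 : ℝ) ^ (δ * Q) ≤ (2 : ℝ) ^ ((C₂ + 1) * Q) := by
        rw [← Real.rpow_add (by norm_num)]
        refine Real.rpow_le_rpow_of_exponent_le (by norm_num) ?_
        nlinarith
      have f : ∀ ω, 0 < p ω → |cc (L ω) 0 * (x (D (L ω)) - xg (G ω))| ≤
          (2 : ℝ) ^ ((C₂ + 1) * Q) := by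
        intro ω hω
        have a1 := H.cb ω hω 0
        have b1 := H.xgb ω hω
        rw [abs_mul]
        calc |cc (L ω) 0| * |x (D (L ω)) - xg (G ω)| ≤
            |cc (L ω) 0| * ((2 : ℝ) ^ (δ * Q) * B) :=
              mul_le_mul_of_nonneg_left b1 (abs_nonneg _)
          _ = (|cc (L ω) 0| * B) * (2 : ℝ) ^ (δ * Q) := by ring
          _ ≤ (2 : ℝ) ^ (C₂ * Q) * (2 : ℝ) ^ (δ * Q) :=
              mul_le_mul_of_nonneg_right a1 (by positivity)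
          _ ≤ (2 : ℝ) ^ ((C₂ + 1) * Q) := hd2
      rw [e]
      have g1 := f ω hω
      have g2 := f ω' hω'
      have g3 := abs_sub (d (D (L ω)) - d (D (L ω'))) (cc (L ω) 0 * (x (D (L ω)) - xg (G ω)) -
            cc (L ω') 0 * (x (D (L ω')) - xg (G ω')))
      have g4 := abs_sub (cc (L ω) 0 * (x (D (L ω)) - xg (G ω)))
            (cc (L ω') 0 * (x (D (L ω')) - xg (G ω')))
      have g5 : 1 ≤ Y := by nlinarith
      have g6 : 0 < 3 * (2 : ℝ) ^ ((C₂ + 1) * Q) := by positivity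
      have g7 : 3 * (2 : ℝ) ^ ((C₂ + 1) * Q) * 1 ≤ 3 * (2 : ℝ) ^ ((C₂ + 1) * Q) * Y :=
        mul_le_mul_of_nonneg_left g5 g6.le
      linarith
  · have g1 := Pb_marg (P1_f hp G) (fun ω => ∃ i : Fin k, Y / B < |cc (L ω) i.succ|)
    rw [← g1]
    refine (Pb_imp hPn fun w _ hw => ?_).trans (hbad.trans hη1)
    by_contra hcon
    obtain ⟨i, hi⟩ := hw
    have g2 := (hgood w.1 w.2 hcon).2.2.1 i
    have g3 : X / B ≤ Y / B := div_le_div_of_nonneg_right (by linarith) hB.le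
    exact absurd (g2.trans g3) (not_le.mpr hi)
  · obtain ⟨sel, s1, s2⟩ := glue_select hp hp (X := G) (Y := G) (fun _ => rfl) Bad
    refine ⟨fun γ => cc (L (sel γ)) 0, fun γ => d (D (L (sel γ))) - cc (L (sel γ)) 0 *
      (x (D (L (sel γ))) - xg γ), fun ω hω => H.cb _ (s1 ω hω).1 0, ?_⟩
    refine (Pb_imp h0 fun ω hω hw => ?_).trans (s2.trans (hbad.trans hη1))
    by_contra hcon
    obtain ⟨b1, b2, b3, b4⟩ := hgood _ _ hcon
    rcases hw with hw | hw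
    · rw [abs_sub_comm] at hw
      refine absurd (b4.trans ?_) (not_le.mpr hw)
      exact div_le_div_of_nonneg_right (by linarith) hB.le
    · have e : d (D (L ω)) - (cc (L (sel (G ω))) 0 * (x (D (L ω)) - xg (G ω)) +
          (d (D (L (sel (G ω)))) - cc (L (sel (G ω))) 0 *
            (x (D (L (sel (G ω)))) - xg (G ω)))) =
          (d (D (L ω)) - d (D (L (sel (G ω))))) - cc (L (sel (G ω))) 0 *
            (x (D (L ω)) - x (D (L (sel (G ω))))) := by ring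
      rw [e] at hw
      exact absurd (b2.trans (by linarith)) (not_le.mpr hw)

end Pool.PR13
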